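import Mathlib

set_option autoImplicit false

namespace Pool.Agent.P.MP_9682d1_al.C

open scoped commutatorElement

universe u

variable {G : Type*} [Group G]

/-- `[g, k] = g⁻¹ g^k` -/
def cm (g k : G) : G := g⁻¹ * (k⁻¹ * g * k)

/-- right `n`-Engel element -/
def RE (n : ℕ) (a : G) : Prop := ∀ x : G, (fun c : G => c⁻¹ * (x⁻¹ * c * x))^[n] a = 1

/-- left Engel element -/
def LE (s : G) : Prop := ∀ g : G, ∃ n : ℕ, (fun c : G => cm c s)^[n] g = 1

/-- every finite subset generates a nilpotent group -/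
def LN (T : Set G) : Prop :=
  ∀ F : Set G, F.Finite → F ⊆ T → Group.IsNilpotent (Subgroup.closure F)

/-- all left normed commutators of weight 4 in `S` vanish -/
def Cl3 (S : Set G) : Prop :=
  ∀ a ∈ S, ∀ b ∈ S, ∀ c ∈ S, ∀ d ∈ S, cm (cm (cm a b) c) d = 1

/-- conjugation closed -/
def Cj (X : Set G) : Prop := ∀ x ∈ X, ∀ g : G, g⁻¹ * x * g ∈ X

/-- good set: conjugation closed, pairs of class at most 2, triples of class at most 3 -/
structure Good (X : Set G) : Prop where
  cj : Cj X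
  eng : ∀ x ∈ X, ∀ y ∈ X, cm (cm x y) y = 1
  cl3 : ∀ x ∈ X, ∀ y ∈ X, ∀ z ∈ X, Cl3 ({x, y, z} : Set G)

theorem cm_eq (g k : G) : cm g k = g⁻¹ * k⁻¹ * g * k := by simp [cm, mul_assoc]

theorem cm_eq_bracket (g k : G) : cm g k = ⁅g⁻¹, k⁻¹⁆ := by
  simp [cm, commutatorElement_def, mul_assoc]

theorem bracket_eq_cm (g k : G) : ⁅g, k⁆ = cm g⁻¹ k⁻¹ := by
  simp [cm, commutatorElement_def, mul_assoc]

theorem cm_eq_one {g k : G} : cm g k = 1 ↔ Commute g k := by
  rw [cm_eq_bracket, commutatorElement_eq_one_iff_commute]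
  simp

@[simp] theorem one_cm (k : G) : cm 1 k = 1 := by simp [cm]

@[simp] theorem cm_one (k : G) : cm k 1 = 1 := by simp [cm]

@[simp] theorem cm_self (k : G) : cm k k = 1 := by simp [cm]

theorem cm_inv (g k : G) : (cm g k)⁻¹ = cm k g := by simp [cm, mul_assoc]

theorem map_cm {H F : Type*} [Group H] [FunLike F G H] [MonoidHomClass F G H] (f : F)
    (g k : G) : f (cm g k) = cm (f g) (f k) := by simp [cm]

theorem coe_cm {H : Subgroup G} (g k : H) : ((cm g k : H) : G) = cm (g : G) (k : G) := by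
  simp [cm]

theorem cj_cm (g k h : G) : h⁻¹ * cm g k * h = cm (h⁻¹ * g * h) (h⁻¹ * k * h) := by
  simp [cm, mul_assoc]

theorem cm_mul_right (g k l : G) : cm g (k * l) = cm g l * (l⁻¹ * cm g k * l) := by
  simp [cm, mul_assoc]

theorem cm_mul_left (g h k : G) : cm (g * h) k = h⁻¹ * cm g k * h * cm h k := by
  simp [cm, mul_assoc]

theorem cm_mem_left {N : Subgroup G} [hN : N.Normal] {g : G} (hg : g ∈ N) (k : G) :
    cm g k ∈ N :=
  N.mul_mem (N.inv_mem hg) (by simpa using hN.conj_mem g hg k⁻¹)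

theorem cm_mem_right {N : Subgroup G} [hN : N.Normal] (g : G) {k : G} (hk : k ∈ N) :
    cm g k ∈ N := by
  rw [← cm_inv]; exact N.inv_mem (cm_mem_left hk g)

theorem cm_mem {N : Subgroup G} {g k : G} (hg : g ∈ N) (hk : k ∈ N) : cm g k ∈ N :=
  N.mul_mem (N.inv_mem hg) (N.mul_mem (N.mul_mem (N.inv_mem hk) hg) hk)

/-- the elements `k` with `[g, k] ∈ N` form a subgroup -/
theorem cm_closure {N : Subgroup G} [hN : N.Normal] {T : Set G} {g : G}
    (h : ∀ t ∈ T, cm g t ∈ N) {k : G} (hk : k ∈ Subgroup.closure T) : cm g k ∈ N := by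
  induction hk using Subgroup.closure_induction with
  | mem x hx => exact h x hx
  | one => simp
  | mul x y _ _ hx hy =>
    rw [cm_mul_right]
    exact N.mul_mem hy (by simpa using hN.conj_mem _ hx y⁻¹)
  | inv x _ hx =>
    have : cm g x⁻¹ = x * (cm g x)⁻¹ * x⁻¹ := by simp [cm, mul_assoc]
    rw [this]
    exact hN.conj_mem _ (N.inv_mem hx) x

theorem cm_mem_ucs {n : ℕ} {g : G} (hg : g ∈ Subgroup.upperCentralSeries G (n + 1)) (k : G) :
    cm g k ∈ Subgroup.upperCentralSeries G n := by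
  rw [cm_eq_bracket]
  exact Subgroup.mem_upperCentralSeries_succ_iff.mp (inv_mem hg) _

theorem mem_ucs {n : ℕ} {g : G} (h : ∀ k, cm g k ∈ Subgroup.upperCentralSeries G n) :
    g ∈ Subgroup.upperCentralSeries G (n + 1) := by
  rw [← inv_mem_iff, Subgroup.mem_upperCentralSeries_succ_iff]
  intro y
  rw [bracket_eq_cm, inv_inv]
  exact h _

theorem mem_ucs_gen {T : Set G} (hT : Subgroup.closure T = ⊤) {n : ℕ} {g : G}
    (h : ∀ t ∈ T, cm g t ∈ Subgroup.upperCentralSeries G n) : g ∈ Subgroup.upperCentralSeries G (n + 1) :=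
  mem_ucs fun k => cm_closure h (by rw [hT]; trivial)

/-- a finitely generated group all of whose centreless quotients are trivial is nilpotent -/
theorem nil_of_quot {H : Type u} [Group H] {T : Set H} (hT : T.Finite) (hc : Subgroup.closure T = ⊤)
    (h : ∀ (Q : Type u) [Group Q] (φ : H →* Q), Function.Surjective φ →
      (∀ q : Q, (∀ t ∈ T, cm q (φ t) = 1) → q = 1) → ∀ t ∈ T, φ t = 1) :
    Group.IsNilpotent H := by
  have hd : Directed (· ≤ ·) (Subgroup.upperCentralSeries H) :=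
    (Subgroup.upperCentralSeries_mono H).directed_le
  let Z : Subgroup H := ⨆ n, Subgroup.upperCentralSeries H n
  have hZ : ∀ g, g ∈ Z ↔ ∃ n, g ∈ Subgroup.upperCentralSeries H n := fun g =>
    Subgroup.mem_iSup_of_directed hd
  have fin : ∀ f : H → H, (∀ t ∈ T, f t ∈ Z) →
      ∃ n, ∀ t ∈ T, f t ∈ Subgroup.upperCentralSeries H n := by
    intro f hf
    choose! n hn using fun t ht => (hZ _).mp (hf t ht)
    obtain ⟨N, hN⟩ := (hT.image n).bddAbove
    exact ⟨N, fun t ht => Subgroup.upperCentralSeries_mono H (hN ⟨t, ht, rfl⟩) (hn t ht)⟩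
  haveI : Z.Normal := ⟨fun g hg k => by
    obtain ⟨n, hn⟩ := (hZ g).mp hg
    exact (hZ _).mpr ⟨n, Subgroup.Normal.conj_mem inferInstance g hn k⟩⟩
  have key := h (H ⧸ Z) (QuotientGroup.mk' Z) (QuotientGroup.mk'_surjective Z) (by
    intro q hq
    obtain ⟨g, rfl⟩ := QuotientGroup.mk'_surjective Z q
    obtain ⟨n, hn⟩ := fin (fun t => cm g t) fun t ht => by
      have := hq t ht
      rw [← map_cm] at this
      exact (QuotientGroup.eq_one_iff _).mp this
    exact (QuotientGroup.eq_one_iff _).mpr ((hZ _).mpr ⟨n + 1, mem_ucs_gen hc hn⟩))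
  obtain ⟨n, hn⟩ := fin id fun t ht => (QuotientGroup.eq_one_iff _).mp (key t ht)
  exact ⟨n, by rw [eq_top_iff, ← hc, Subgroup.closure_le]; exact hn⟩

theorem Cl3.mono {S T : Set G} (h : Cl3 T) (hS : S ⊆ T) : Cl3 S :=
  fun a ha b hb c hc d hd => h a (hS ha) b (hS hb) c (hS hc) d (hS hd)

theorem Cl3.closure {S : Set G} (h : Cl3 S) : Cl3 (Subgroup.closure S : Set G) := by
  have hT := Subgroup.closure_closure_coe_preimage (k := S)
  have h3 : Subgroup.upperCentralSeries (Subgroup.closure S) 3 = ⊤ := by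
    rw [eq_top_iff, ← hT, Subgroup.closure_le]
    intro a ha
    refine mem_ucs_gen hT fun b hb => mem_ucs_gen hT fun c hc => mem_ucs_gen hT fun d hd => ?_
    rw [Subgroup.upperCentralSeries_zero, Subgroup.mem_bot, ← Subtype.coe_inj]
    simpa [coe_cm] using h a ha b hb c hc d hd
  intro a ha b hb c hc d hd
  have : (⟨a, ha⟩ : Subgroup.closure S) ∈ Subgroup.upperCentralSeries _ 3 := by rw [h3]; trivial
  have := cm_mem_ucs (cm_mem_ucs (cm_mem_ucs this ⟨b, hb⟩) ⟨c, hc⟩) ⟨d, hd⟩
  rw [Subgroup.upperCentralSeries_zero, Subgroup.mem_bot, ← Subtype.coe_inj] at this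
  simpa [coe_cm] using this

theorem nil_mono {H K : Subgroup G} (h : H ≤ K) (hK : Group.IsNilpotent K) :
    Group.IsNilpotent H := by
  obtain ⟨n, hn⟩ := (Subgroup.isNilpotent_iff_lowerCentralSeries K).mp hK
  refine Subgroup.isNilpotent_of_lowerCentralSeries_eq_bot (n := n) ?_
  rw [eq_bot_iff, ← hn]
  exact Subgroup.lowerCentralSeries_mono n h

theorem nil_map {Q : Type*} [Group Q] (f : G →* Q) {K : Subgroup G} (hK : Group.IsNilpotent K) :
    Group.IsNilpotent (K.map f) := by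
  obtain ⟨n, hn⟩ := (Subgroup.isNilpotent_iff_lowerCentralSeries K).mp hK
  refine Subgroup.isNilpotent_of_lowerCentralSeries_eq_bot (n := n) ?_
  rw [← Subgroup.map_lowerCentralSeries, hn, Subgroup.map_bot]

theorem nil_of_map {Q : Type*} [Group Q] {f : G →* Q} (hf : Function.Injective f)
    {K : Subgroup G} (hK : Group.IsNilpotent (K.map f)) : Group.IsNilpotent K :=
  (Group.isNilpotent_congr (K.equivMapOfInjective f hf)).mpr hK

theorem LN.mono {S T : Set G} (h : LN T) (hS : S ⊆ T) : LN S :=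
  fun F hF hFS => h F hF (hFS.trans hS)

theorem exists_fin_closure {T F : Set G} (hF : F.Finite) (h : F ⊆ Subgroup.closure T) :
    ∃ E : Set G, E.Finite ∧ E ⊆ T ∧ F ⊆ Subgroup.closure E := by
  have : ∀ g ∈ F, ∃ E : Set G, E.Finite ∧ E ⊆ T ∧ g ∈ Subgroup.closure E := by
    intro g hg'
    have hg : g ∈ Subgroup.closure T := h hg'
    clear hg'
    induction hg using Subgroup.closure_induction with
    | mem x hx => exact ⟨{x}, Set.finite_singleton x, by simpa, Subgroup.subset_closure rfl⟩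
    | one => exact ⟨∅, Set.finite_empty, by simp, one_mem _⟩
    | mul x y _ _ hx hy =>
      obtain ⟨E, h1, h2, h3⟩ := hx
      obtain ⟨E', h1', h2', h3'⟩ := hy
      exact ⟨E ∪ E', h1.union h1', Set.union_subset h2 h2',
        mul_mem (Subgroup.closure_mono Set.subset_union_left h3)
          (Subgroup.closure_mono Set.subset_union_right h3')⟩
    | inv x _ hx =>
      obtain ⟨E, h1, h2, h3⟩ := hx
      exact ⟨E, h1, h2, inv_mem h3⟩
  choose! E hE using this
  refine ⟨⋃ g ∈ F, E g, hF.biUnion fun g hg => (hE g hg).1,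
    Set.iUnion₂_subset fun g hg => (hE g hg).2.1, fun g hg => ?_⟩
  exact Subgroup.closure_mono (Set.subset_biUnion_of_mem (u := E) hg) (hE g hg).2.2

theorem LN.closure {T : Set G} (h : LN T) : LN (Subgroup.closure T : Set G) := by
  intro F hF hFT
  obtain ⟨E, hE, hET, hFE⟩ := exists_fin_closure hF hFT
  exact nil_mono ((Subgroup.closure_le _).mpr hFE) (h E hE hET)

theorem LN.image {Q : Type*} [Group Q] (f : G →* Q) {T : Set G} (h : LN T) : LN (f '' T) := by
  intro F hF hFT
  obtain ⟨E, hET, hE, rfl⟩ := hF.exists_subset_finite_image_eq hFT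
  rw [← MonoidHom.map_closure]
  exact nil_map f (h E hE hET)

theorem LN.preimage {Q : Type*} [Group Q] {f : G →* Q} (hf : Function.Injective f) {T : Set Q}
    (h : LN T) : LN (f ⁻¹' T) := by
  intro F hF hFT
  refine nil_of_map hf ?_
  rw [MonoidHom.map_closure]
  exact h _ (hF.image f) (Set.image_subset_iff.mpr hFT)

end Pool.Agent.P.MP_9682d1_al.C
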