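import Mathlib

set_option autoImplicit false

namespace Pool.Agent.P.MP_9682d1_al.C

variable {A : Type*}

/-- the factor of length `n` at position `i` -/
def seg (W : ℕ → A) : ℕ → ℕ → List A
  | _, 0 => []
  | i, n + 1 => W i :: seg W (i + 1) n

@[simp] theorem length_seg (W : ℕ → A) (i n : ℕ) : (seg W i n).length = n := by
  induction n generalizing i with
  | zero => rfl
  | succ n ih => simp [seg, ih]

theorem seg_add (W : ℕ → A) (i m n : ℕ) : seg W i (m + n) = seg W i m ++ seg W (i + m) n := by
  induction m generalizing i with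
  | zero => simp [seg]
  | succ m ih =>
    rw [Nat.add_right_comm, seg, seg, ih, List.cons_append]
    congr 3
    omega

theorem seg_congr {W V : ℕ → A} {i k n : ℕ} (h : ∀ j < n, W (i + j) = V (k + j)) :
    seg W i n = seg V k n := by
  induction n generalizing i k with
  | zero => rfl
  | succ n ih =>
    rw [seg, seg, ih (k := k + 1)]
    · congr 1
      exact h 0 (by omega)
    · intro j hj
      have := h (j + 1) (by omega)
      rwa [show i + (j + 1) = i + 1 + j by omega, show k + (j + 1) = k + 1 + j by omega] at this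

theorem seg_split {W : ℕ → A} {i n : ℕ} {p q : List A} (h : seg W i n = p ++ q) :
    n = p.length + q.length ∧ seg W i p.length = p ∧ seg W (i + p.length) q.length = q := by
  have hn : n = p.length + q.length := by simpa using congrArg List.length h
  subst hn
  rw [seg_add] at h
  exact ⟨rfl, List.append_inj h (by simp)⟩

theorem exists_lim (r : A → A → Prop) (wf : WellFounded r)
    (tri : ∀ a b, ¬ r a b → ¬ r b a → a = b) {S : Set (ℕ → A)} (hne : S.Nonempty) :
    ∃ V : ℕ → A, (∀ n, ∃ U ∈ S, ∀ i < n, U i = V i) ∧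
      ∀ U ∈ S, ∀ k, (∀ i < k, U i = V i) → ¬ r (U k) (V k) := by
  let T : ℕ → Set (ℕ → A) := fun n =>
    Nat.rec S (fun n P => {U | U ∈ P ∧ ∀ U' ∈ P, ¬ r (U' n) (U n)}) n
  have hs : ∀ n U, U ∈ T (n + 1) ↔ U ∈ T n ∧ ∀ U' ∈ T n, ¬ r (U' n) (U n) := fun _ _ => Iff.rfl
  have ne : ∀ n, (T n).Nonempty := by
    intro n
    induction n with
    | zero => exact hne
    | succ n ih =>
      obtain ⟨_, ⟨U, hU, rfl⟩, h⟩ := wf.has_min ((fun U => U n) '' T n) (ih.image _)
      exact ⟨U, (hs _ _).mpr ⟨hU, fun U' hU' => h _ ⟨U', hU', rfl⟩⟩⟩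
  have anti : Antitone T := antitone_nat_of_succ_le fun n U hU => ((hs _ _).mp hU).1
  choose E hE using ne
  have ag : ∀ n, ∀ U ∈ T (n + 1), U n = E (n + 1) n := fun n U hU =>
    tri _ _ (((hs _ _).mp (hE (n + 1))).2 U ((hs _ _).mp hU).1)
      (((hs _ _).mp hU).2 _ ((hs _ _).mp (hE (n + 1))).1)
  refine ⟨fun n => E (n + 1) n, fun n => ⟨E n, anti (Nat.zero_le n) (hE n), fun i hi =>
    ag i _ (anti hi (hE n))⟩, fun U hU k hk => ?_⟩
  have : ∀ n ≤ k, U ∈ T n := by
    intro n hn
    induction n with
    | zero => exact hU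
    | succ n ih =>
      refine (hs _ _).mpr ⟨ih (by omega), fun U' hU' => ?_⟩
      rw [hk n (by omega)]
      exact ((hs _ _).mp (hE (n + 1))).2 U' hU'
  exact ((hs _ _).mp (hE (k + 1))).2 U (this k le_rfl)

variable [LinearOrder A]

/-- smaller at a letter -/
inductive LtA : List A → List A → Prop
  | here {a b : A} {s t : List A} : a < b → LtA (a :: s) (b :: t)
  | there {a : A} {s t : List A} : LtA s t → LtA (a :: s) (a :: t)

theorem LtA.append {u v : List A} (h : LtA u v) (u' v' : List A) : LtA (u ++ u') (v ++ v') := by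
  induction h with
  | here h => exact .here h
  | there _ ih => exact .there ih

theorem LtA.pre {u v : List A} (h : LtA u v) (p : List A) : LtA (p ++ u) (p ++ v) := by
  induction p with
  | nil => exact h
  | cons a p ih => exact .there ih

theorem LtA.trans {u v w : List A} (h : LtA u v) (h' : LtA v w) : LtA u w := by
  induction h generalizing w with
  | here h =>
    cases h' with
    | here h' => exact .here (h.trans h')
    | there _ => exact .here h
  | there _ ih =>
    cases h' with
    | here h' => exact .here h'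
    | there h' => exact .there (ih h')

theorem LtA.lt {u v : List A} (h : LtA u v) : u < v := by
  induction h with
  | here h => exact List.Lex.rel h
  | there _ ih => exact List.Lex.cons ih

theorem ltA_tri (u v : List A) : LtA u v ∨ u <+: v ∨ v < u := by
  induction u generalizing v with
  | nil => simp
  | cons a u ih =>
    cases v with
    | nil => exact Or.inr (Or.inr List.Lex.nil)
    | cons b v =>
      rcases lt_trichotomy a b with h | rfl | h
      · exact Or.inl (.here h)
      · rcases ih v with h | h | h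
        · exact Or.inl (.there h)
        · exact Or.inr (Or.inl ((List.prefix_cons_inj a).mpr h))
        · exact Or.inr (Or.inr (List.Lex.cons h))
      · exact Or.inr (Or.inr (List.Lex.rel h))

theorem ltA_seg {W V : ℕ → A} {i j k n m : ℕ} (h : ∀ l < k, W (i + l) = V (j + l))
    (hk : W (i + k) < V (j + k)) (hn : k < n) (hm : k < m) : LtA (seg W i n) (seg V j m) := by
  obtain ⟨n, rfl⟩ := Nat.exists_eq_add_of_lt hn
  obtain ⟨m, rfl⟩ := Nat.exists_eq_add_of_lt hm
  rw [add_assoc, add_assoc, seg_add W i k, seg_add V j k, seg_congr h]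
  exact LtA.pre (.here hk) _

theorem LtA.seg {W : ℕ → A} {i n : ℕ} {v : List A} (h : LtA (seg W i n) v) :
    ∃ k b t, W (i + k) < b ∧ v = C.seg W i k ++ b :: t := by
  induction n generalizing i v with
  | zero => cases h
  | succ n ih =>
    cases h with
    | here h => exact ⟨0, _, _, h, rfl⟩
    | there h =>
      obtain ⟨k, b, t, h1, rfl⟩ := ih h
      exact ⟨k + 1, b, t, by rwa [show i + (k + 1) = i + 1 + k by omega], rfl⟩

/-- standard words -/
inductive St : List A → Prop
  | one (a : A) : St [a]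
  | app {u v : List A} : St u → St v → LtA u v → St (u ++ v)

theorem St.ne_nil {u : List A} (h : St u) : u ≠ [] := by
  induction h with
  | one a => simp
  | app _ _ _ ih _ => simp [ih]

theorem st_of_reg {u : List A} (hu : u ≠ []) (sq : ∀ p c q, St c → u ≠ p ++ (c ++ c) ++ q)
    (reg : ∀ p v, p ≠ [] → v ≠ [] → u = p ++ v → LtA u v) : St u := by
  have key : ∀ n, ∀ L : List (List A), L.length = n → (∀ c ∈ L, St c) → L.flatten = u → St u := by
    intro n
    induction n using Nat.strong_induction_on with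
    | _ n ih =>
      intro L hn hL hf
      by_cases hc : L.IsChain (fun c d => d < c)
      · rcases L with _ | ⟨c, L⟩
        · exact absurd hf.symm hu
        rcases L.eq_nil_or_concat with rfl | ⟨L, d, rfl⟩
        · have := hL c (by simp)
          simp only [List.flatten_cons, List.flatten_nil, List.append_nil] at hf
          exact hf ▸ this
        exfalso
        haveI : Trans (fun c d : List A => d < c) (fun c d : List A => d < c)
          (fun c d : List A => d < c) := ⟨fun h h' => lt_trans h' h⟩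
        have h1 : d < c := (List.pairwise_cons.mp hc.pairwise).1 d (by simp)
        have h2 : u = (c ++ L.flatten) ++ d := by simp [← hf]
        have h3 := (reg _ d (by simp [(hL c (by simp)).ne_nil]) (hL d (by simp)).ne_nil h2).lt
        have h4 : c ≤ u := by
          rw [h2, List.append_assoc]
          exact not_lt.mp (List.le_append_left (α := A) (l₁ := c))
        exact absurd (h3.trans h1) (not_lt.mpr h4)
      · rw [List.isChain_iff_forall_rel_of_append_cons_cons] at hc
        push Not at hc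
        obtain ⟨c, d, l₁, l₂, rfl, hcd⟩ := hc
        have hc := hL c (by simp)
        have hd := hL d (by simp)
        rcases ltA_tri c d with h | ⟨e, rfl⟩ | h
        · refine ih _ ?_ (l₁ ++ (c ++ d) :: l₂) rfl ?_ (by simp [← hf])
          · simp [← hn]
          · intro x hx
            simp only [List.mem_append, List.mem_cons] at hx
            rcases hx with hx | rfl | hx
            · exact hL x (by simp [hx])
            · exact .app hc hd h
            · exact hL x (by simp [hx])
        · exact absurd (by simp [← hf]) (sq l₁.flatten c (e ++ l₂.flatten) hc)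
        · exact absurd h (not_lt.mpr hcd)
  refine key _ (u.map fun a => [a]) rfl ?_ ?_
  · intro c hc
    obtain ⟨a, _, rfl⟩ := List.mem_map.mp hc
    exact .one a
  · clear hu sq reg key
    induction u with
    | nil => rfl
    | cons a u ih => simpa using ih

/-- a factor `c c` or `c d c` with standard `c`, `d` -/
def Pat (W : ℕ → A) : Prop :=
  ∃ (i n : ℕ) (c d : List A), St c ∧ (d = [] ∨ St d) ∧ seg W i n = c ++ d ++ c

theorem Pat.of_eq {W V : ℕ → A} {i n : ℕ} {c d : List A} (hc : St c) (hd : d = [] ∨ St d)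
    (h : seg W i n = c ++ d ++ c) {k : ℕ} (hV : ∀ j < n, V (k + j) = W (i + j)) : Pat V :=
  ⟨k, n, c, d, hc, hd, (seg_congr hV).trans h⟩

theorem exists_rec [Finite A] {W₀ : ℕ → A} (h₀ : ¬ Pat W₀) :
    ∃ W : ℕ → A, ¬ Pat W ∧ (∀ r k, (∀ i < k, W (r + i) = W i) → W k ≤ W (r + k)) ∧
      ∀ L, ∃ r, 1 ≤ r ∧ ∀ i < L, W (r + i) = W i := by
  have t1 : ∀ a b : A, ¬ a < b → ¬ b < a → a = b := fun a b h h' =>
    le_antisymm (not_lt.mp h') (not_lt.mp h)
  have lim : ∀ V : ℕ → A, (∀ n, ∃ U, ¬ Pat U ∧ ∀ i < n, U i = V i) → ¬ Pat V := by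
    rintro V hV ⟨i, n, c, d, hc, hd, h⟩
    obtain ⟨U, hU, hUV⟩ := hV (i + n)
    exact hU (Pat.of_eq hc hd h fun j hj => hUV _ (by omega))
  have tail : ∀ (V : ℕ → A) (r : ℕ), ¬ Pat V → ¬ Pat fun i => V (r + i) := by
    rintro V r hV ⟨i, n, c, d, hc, hd, h⟩
    exact hV (Pat.of_eq hc hd h (k := r + i) fun j _ => by simp only [add_assoc])
  obtain ⟨V₀, a1, a2⟩ := exists_lim (· < ·) wellFounded_lt t1 (S := {U | ¬ Pat U}) ⟨W₀, h₀⟩
  obtain ⟨W, b1, b2⟩ := exists_lim (· > ·) wellFounded_gt (fun a b h h' => t1 a b h' h)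
    (S := {U | ¬ Pat U ∧ ∀ r k, (∀ i < k, U (r + i) = U i) → U k ≤ U (r + k)})
    ⟨V₀, lim _ a1, fun r k h => not_lt.mp (a2 _ (tail V₀ r (lim _ a1)) k h)⟩
  have hW : ¬ Pat W := lim _ fun n => by
    obtain ⟨U, hU, h⟩ := b1 n
    exact ⟨U, hU.1, h⟩
  have hW' : ∀ r k, (∀ i < k, W (r + i) = W i) → W k ≤ W (r + k) := by
    intro r k h
    obtain ⟨U, hU, hUW⟩ := b1 (r + k + 1)
    rw [← hUW _ (by omega), ← hUW (r + k) (by omega)]
    refine hU.2 r k fun i hi => ?_
    rw [hUW _ (by omega), hUW _ (by omega), h i hi]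
  obtain ⟨V, c1, c2⟩ := exists_lim (· < ·) wellFounded_lt t1
    (S := {U | ∃ r, 1 ≤ r ∧ U = fun i => W (r + i)}) ⟨_, 1, le_rfl, rfl⟩
  have hV : ¬ Pat V := lim _ fun n => by
    obtain ⟨U, ⟨r, _, rfl⟩, h⟩ := c1 n
    exact ⟨_, tail W r hW, h⟩
  have hV' : ∀ r k, (∀ i < k, V (r + i) = V i) → V k ≤ V (r + k) := by
    intro s k h
    obtain ⟨U, ⟨r, hr, rfl⟩, hU⟩ := c1 (s + k + 1)
    have := c2 (fun i => W (r + s + i)) ⟨r + s, by omega, rfl⟩ k fun i hi => by
      rw [← h i hi, ← hU _ (by omega)]
      simp only [add_assoc]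
    rw [← hU (s + k) (by omega)]
    simpa only [add_assoc, not_lt] using this
  have hVW : ∀ k, V k = W k := by
    intro k
    induction k using Nat.strong_induction_on with
    | _ k ih =>
      refine le_antisymm (not_lt.mp (b2 V ⟨hV, hV'⟩ k ih)) ?_
      obtain ⟨U, ⟨r, hr, rfl⟩, hU⟩ := c1 (k + 1)
      rw [← hU k (by omega)]
      exact hW' r k fun i hi => (hU i (by omega)).trans (ih i hi)
  refine ⟨W, hW, hW', fun L => ?_⟩
  obtain ⟨U, ⟨r, hr, rfl⟩, hU⟩ := c1 L
  exact ⟨r, hr, fun i hi => (hU i hi).trans (hVW i)⟩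

theorem pat [Finite A] (W₀ : ℕ → A) : Pat W₀ := by
  classical
  by_contra h₀
  obtain ⟨W, hW, hle, hrec⟩ := exists_rec h₀
  have st : ∀ n, 1 ≤ n → (∀ m, 1 ≤ m → m < n → ¬ ∀ i < m, W (n - m + i) = W i) →
      St (seg W 0 n) := by
    intro n hn hb
    refine st_of_reg (by rw [← List.length_pos_iff, length_seg]; omega) ?_ ?_
    · intro p c q hc h
      have h1 := (seg_split h).2.1
      exact hW ⟨_, _, c, [], hc, Or.inl rfl, by simpa using (seg_split h1).2.2⟩
    · intro p v hp hv h
      obtain ⟨h1, -, h2⟩ := seg_split h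
      rw [← List.length_pos_iff] at hp hv
      have hx : ∃ i, i < v.length ∧ W (p.length + i) ≠ W i := by
        have := hb v.length hv (by omega)
        rw [show n - v.length = p.length by omega] at this
        push Not at this
        exact this
      have hk := Nat.find_spec hx
      have hl : ∀ i < Nat.find hx, W (p.length + i) = W i := fun i hi => by
        have := Nat.find_min hx hi
        push Not at this
        exact this (by omega)
      rw [← h2]
      refine ltA_seg (k := Nat.find hx) (fun l h => by simp [hl l h]) ?_ (by omega) hk.1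
      simpa using lt_of_le_of_ne (hle _ _ hl) hk.2.symm
  let r : ℕ → ℕ := fun L => Nat.find (hrec L)
  have hr : ∀ L, 1 ≤ r L ∧ ∀ i < L, W (r L + i) = W i := fun L => Nat.find_spec (hrec L)
  obtain ⟨a, ha⟩ := Finite.exists_infinite_fiber fun L => W (r L - 1)
  have ha' : Set.Infinite ((fun L => W (r L - 1)) ⁻¹' {a}) := Set.infinite_coe_iff.mp ha
  obtain ⟨L₁, h₁⟩ := ha'.nonempty
  obtain ⟨L₂, h₂, h₁₂⟩ := ha'.exists_gt (r L₁)
  have h₁ : W (r L₁ - 1) = a := h₁
  have h₂ : W (r L₂ - 1) = a := h₂
  obtain ⟨n, hn⟩ : ∃ n, r L₁ = n + 1 := ⟨r L₁ - 1, by have := (hr L₁).1; omega⟩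
  obtain ⟨n', hn'⟩ : ∃ n, r L₂ = n + 1 := ⟨r L₂ - 1, by have := (hr L₂).1; omega⟩
  rw [hn, Nat.add_sub_cancel] at h₁
  rw [hn', Nat.add_sub_cancel] at h₂
  by_cases hb : ∃ m, 1 ≤ m ∧ m < n ∧ ∀ i < m, W (n - m + i) = W i
  · obtain ⟨m1, m2, m3⟩ := Nat.find_spec hb
    set m := Nat.find hb with hm
    have hmL : m ≤ L₁ := by
      by_contra hc
      exact Nat.find_min (hrec L₁) (m := n - m) (by change _ < r L₁; omega)
        ⟨by omega, fun i hi => m3 i (by omega)⟩
    refine hW ⟨n - m, m + 1 + m, seg W 0 m, [a], st m m1 fun k k1 k2 k3 => ?_,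
      Or.inr (.one a), ?_⟩
    · refine Nat.find_min hb (m := k) k2 ⟨k1, by omega, fun i hi => ?_⟩
      rw [← k3 i hi, ← m3 (m - k + i) (by omega)]
      congr 1
      omega
    · rw [seg_add, seg_add]
      congr 1
      congr 1
      · exact seg_congr fun j hj => by simpa using m3 j hj
      · rw [show n - m + m = n by omega, ← h₁]
        rfl
      · refine seg_congr fun j hj => ?_
        rw [show n - m + (m + 1) = r L₁ by omega, zero_add]
        exact (hr L₁).2 j (by omega)
  · refine hW ⟨n', 1 + n + 1, [a], seg W 0 n, .one a, ?_, ?_⟩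
    · rcases Nat.eq_zero_or_pos n with rfl | h
      · exact Or.inl rfl
      · exact Or.inr (st n h fun m m1 m2 m3 => hb ⟨m, m1, m2, m3⟩)
    · rw [seg_add, seg_add]
      congr 1
      congr 1
      · rw [← h₂]
        rfl
      · refine seg_congr fun j hj => ?_
        rw [← hn', zero_add]
        exact (hr L₂).2 j (by omega)
      · rw [← h₁, ← (hr L₂).2 n (by omega), hn', show n' + (1 + n) = n' + 1 + n by omega]
        rfl

end Pool.Agent.P.MP_9682d1_al.C
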