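import Mathlib
import Pool.Agent.P.MP_9682d1_al.C.Defs
import Pool.Agent.P.MP_9682d1_al.C.Word

set_option autoImplicit false

namespace Pool.Agent.P.MP_9682d1_al.C

universe u

variable {G : Type*} [Group G]

/-- commutator closed strong sandwich set -/
structure SC (Y : Set G) : Prop where
  mem : ∀ x ∈ Y, ∀ y ∈ Y, cm x y ∈ Y
  eng : ∀ x ∈ Y, ∀ y ∈ Y, cm (cm x y) y = 1
  cl3 : ∀ x ∈ Y, ∀ y ∈ Y, ∀ z ∈ Y, Cl3 ({x, y, z} : Set G)

theorem Cl3.image {Q : Type*} [Group Q] (f : G →* Q) {S : Set G} (h : Cl3 S) : Cl3 (f '' S) := by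
  rintro _ ⟨a, ha, rfl⟩ _ ⟨b, hb, rfl⟩ _ ⟨c, hc, rfl⟩ _ ⟨d, hd, rfl⟩
  simp only [← map_cm, h a ha b hb c hc d hd, map_one]

theorem Cl3.of_image {Q : Type*} [Group Q] {f : G →* Q} (hf : Function.Injective f) {S : Set G}
    (h : Cl3 (f '' S)) : Cl3 S := by
  intro a ha b hb c hc d hd
  apply hf
  simp only [map_cm, map_one]
  exact h _ ⟨a, ha, rfl⟩ _ ⟨b, hb, rfl⟩ _ ⟨c, hc, rfl⟩ _ ⟨d, hd, rfl⟩

theorem SC.image {Q : Type*} [Group Q] (f : G →* Q) {Y : Set G} (h : SC Y) : SC (f '' Y) := by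
  refine ⟨?_, ?_, ?_⟩
  · rintro _ ⟨a, ha, rfl⟩ _ ⟨b, hb, rfl⟩
    exact ⟨_, h.mem a ha b hb, map_cm f a b⟩
  · rintro _ ⟨a, ha, rfl⟩ _ ⟨b, hb, rfl⟩
    simp only [← map_cm, h.eng a ha b hb, map_one]
  · rintro _ ⟨a, ha, rfl⟩ _ ⟨b, hb, rfl⟩ _ ⟨c, hc, rfl⟩
    simpa only [Set.image_insert_eq, Set.image_singleton] using (h.cl3 a ha b hb c hc).image f

theorem SC.preimage {Q : Type*} [Group Q] {f : G →* Q} (hf : Function.Injective f) {Y : Set Q}
    (h : SC Y) : SC (f ⁻¹' Y) := by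
  refine ⟨fun a ha b hb => ?_, fun a ha b hb => hf ?_, fun a ha b hb c hc => Cl3.of_image hf ?_⟩
  · simpa only [Set.mem_preimage, map_cm] using h.mem _ ha _ hb
  · simpa only [map_cm, map_one] using h.eng _ ha _ hb
  · simpa only [Set.image_insert_eq, Set.image_singleton] using h.cl3 _ ha _ hb _ hc

theorem cj_eq (g k : G) : k⁻¹ * g * k = g * cm g k := by simp [cm]

theorem cm_cm_of_commute {y a b : G} (h1 : cm y b = 1) (h2 : cm (cm y a) a = 1)
    (h : Cl3 ({y, a, b} : Set G)) : cm y (cm a b) = cm (cm y a) b := by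
  have c1 := h y (by simp) a (by simp) b (by simp) y (by simp)
  have c2 := h y (by simp) a (by simp) b (by simp) a (by simp)
  have c3 := h y (by simp) a (by simp) b (by simp) b (by simp)
  rw [cm_eq_one] at h1 h2 c1 c2 c3
  have e0 := cj_eq y a
  have e3 := cj_eq (cm y a) b
  generalize cm (cm y a) b = k at *
  generalize cm y a = g at *
  have c4 : Commute k g := by
    rw [show g = y⁻¹ * (a⁻¹ * y * a) by rw [e0]; group]
    exact c1.inv_right.mul_right ((c2.inv_right.mul_right c1).mul_right c2)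
  have e1 : a * y * a⁻¹ = y * g⁻¹ := by
    calc a * y * a⁻¹ = a * (y * g) * (a⁻¹ * g⁻¹) := by rw [← h2.inv_left.inv_right.eq]; group
      _ = y * g⁻¹ := by rw [← e0]; group
  have e2 : b * g * b⁻¹ = g * k⁻¹ := by
    calc b * g * b⁻¹ = b * (g * k) * (b⁻¹ * k⁻¹) := by rw [← c3.inv_left.inv_right.eq]; group
      _ = g * k⁻¹ := by rw [← e3]; group
  have e4 : b * y * b⁻¹ = y := by rw [← h1.eq]; group
  have e5 : b⁻¹ * y * b = y := by rw [mul_assoc, h1.eq]; group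
  have e6 : b⁻¹ * k * b = k := by rw [mul_assoc, c3.eq]; group
  have e7 : a⁻¹ * k * a = k := by rw [mul_assoc, c2.eq]; group
  have e8 : a⁻¹ * g * a = g := by rw [mul_assoc, h2.eq]; group
  calc cm y (cm a b) = y⁻¹ * (b⁻¹ * (a⁻¹ * (b * (a * y * a⁻¹) * b⁻¹) * a) * b) := by
        simp only [cm]; group
    _ = y⁻¹ * (b⁻¹ * (a⁻¹ * ((b * y * b⁻¹) * (b * g * b⁻¹)⁻¹) * a) * b) := by rw [e1]; group
    _ = y⁻¹ * (b⁻¹ * ((a⁻¹ * y * a) * (a⁻¹ * k * a) * (a⁻¹ * g * a)⁻¹) * b) := by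
        rw [e2, e4]; group
    _ = y⁻¹ * (b⁻¹ * (y * (g * k) * g⁻¹) * b) := by rw [e0, e7, e8]; group
    _ = y⁻¹ * ((b⁻¹ * y * b) * (b⁻¹ * k * b)) := by rw [← c4.eq]; group
    _ = k := by rw [e5, e6]; group

/-- left normed commutator along a word -/
def lc {A : Type*} (x : A → G) (y : G) (w : List A) : G := w.foldl (fun g a => cm g (x a)) y

theorem lc_append {A : Type*} (x : A → G) (y : G) (u v : List A) :
    lc x y (u ++ v) = lc x (lc x y u) v := List.foldl_append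

theorem lc_one {A : Type*} (x : A → G) (w : List A) : lc x 1 w = 1 := by
  induction w with
  | nil => rfl
  | cons a w ih => simpa [lc] using ih

theorem SC.std {A : Type*} [LinearOrder A] {Y : Set G} (h : SC Y) {x : A → G} (hx : ∀ a, x a ∈ Y)
    {c : List A} (hc : St c) :
    ∃ C ∈ Y, ∀ y ∈ Y, (∀ w, LtA c w → lc x y w = 1) → lc x y c = cm y C := by
  induction hc with
  | one a => exact ⟨x a, hx a, fun y _ _ => rfl⟩
  | @app u v _ _ huv ihu ihv =>
    obtain ⟨U, hU, ihu⟩ := ihu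
    obtain ⟨V, hV, ihv⟩ := ihv
    refine ⟨cm U V, h.mem _ hU _ hV, fun y hy H => ?_⟩
    have h1 : ∀ w, LtA u w → lc x y w = 1 := fun w hw => H w (by simpa using hw.append v [])
    have h2 := ihu y hy h1
    have h3 := ihv _ (h.mem _ hy _ hU) fun w hw => by rw [← h2, ← lc_append]; exact H _ (hw.pre u)
    have h4 := ihv y hy fun w hw => h1 w (huv.trans hw)
    rw [lc_append, h2, h3,
      cm_cm_of_commute (h4.symm.trans (h1 v huv)) (h.eng _ hy _ hU) (h.cl3 _ hy _ hU _ hV)]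

theorem SC.triv {A : Type*} [Finite A] {Y : Set G} (h : SC Y) {x : A → G} (hx : ∀ a, x a ∈ Y)
    (hz : ∀ q : G, (∀ a, cm q (x a) = 1) → q = 1) {y : G} (hy : y ∈ Y) : y = 1 := by
  letI : LinearOrder A := LinearOrder.lift' (Finite.equivFin A) (Equiv.injective _)
  by_contra hy1
  have ex : ∀ q : G, q ≠ 1 → ∃ a, cm q (x a) ≠ 1 ∧ ∀ b, a < b → cm q (x b) = 1 := by
    intro q hq
    obtain ⟨a, ha, hm⟩ := (wellFounded_gt (α := A)).has_min {a | cm q (x a) ≠ 1} (by
      by_contra hc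
      exact hq (hz q fun a => by_contra fun ha => hc ⟨a, ha⟩))
    exact ⟨a, ha, fun b hb => by_contra fun hc => hm b hc hb⟩
  haveI : Nonempty A := ⟨(ex y hy1).choose⟩
  choose! nx hnx hnx' using ex
  let g : ℕ → G := fun n => Nat.rec y (fun _ q => cm q (x (nx q))) n
  let W : ℕ → A := fun n => nx (g n)
  have gs : ∀ n, g (n + 1) = cm (g n) (x (W n)) := fun _ => rfl
  have g1 : ∀ n, g n ≠ 1 ∧ g n ∈ Y := by
    intro n
    induction n with
    | zero => exact ⟨hy1, hy⟩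
    | succ n ih => exact ⟨hnx _ ih.1, h.mem _ ih.2 _ (hx _)⟩
  have g2 : ∀ n i, lc x (g i) (seg W i n) = g (i + n) := by
    intro n
    induction n with
    | zero => intro i; rfl
    | succ n ih =>
      intro i
      rw [show i + (n + 1) = i + 1 + n by omega, ← ih, gs]
      rfl
  have g3 : ∀ c : List A, St c → ∃ C ∈ Y, ∀ i, seg W i c.length = c →
      g (i + c.length) = cm (g i) C := by
    intro c hc
    obtain ⟨C, hC, H⟩ := h.std hx hc
    refine ⟨C, hC, fun i hi => ?_⟩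
    rw [← g2, hi]
    refine H _ (g1 i).2 fun w hw => ?_
    rw [← hi] at hw
    obtain ⟨k, b, t, hb, rfl⟩ := hw.seg
    rw [lc_append, g2]
    change lc x (cm (g (i + k)) (x b)) t = 1
    rw [hnx' _ (g1 _).1 b hb, lc_one]
  obtain ⟨i, n, c, d, hc, hd, hs⟩ := pat W
  obtain ⟨-, s1, s2⟩ := seg_split hs
  obtain ⟨-, s3, s4⟩ := seg_split s1
  obtain ⟨C, hC, H⟩ := g3 c hc
  refine (g1 (i + (c ++ d).length + c.length)).1 ?_
  rw [H _ s2]
  rcases hd with rfl | hd
  · rw [List.append_nil, H _ s3]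
    exact h.eng _ (g1 i).2 _ hC
  · obtain ⟨D, hD, H'⟩ := g3 d hd
    rw [List.length_append, ← add_assoc, H' _ s4, H _ s3]
    exact h.cl3 _ (g1 i).2 _ hC _ hD _ (by simp) _ (by simp) _ (by simp) _ (by simp)

/-- (C4) a commutator closed strong sandwich set generates a locally nilpotent group -/
theorem SC.ln {Y : Set G} (h : SC Y) : LN Y := by
  intro F hF hFY
  have hT : (((↑) : Subgroup.closure F → G) ⁻¹' F).Finite :=
    hF.preimage Subtype.val_injective.injOn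
  refine nil_of_quot hT Subgroup.closure_closure_coe_preimage fun Q _ φ _ hz t ht => ?_
  have h' := (h.preimage (Subgroup.closure F).subtype_injective).image φ
  haveI := hT.to_subtype
  exact h'.triv (A := ((↑) : Subgroup.closure F → G) ⁻¹' F) (x := fun a => φ a.1)
    (fun a => ⟨a.1, hFY a.2, rfl⟩) (fun q hq => hz q fun t ht => hq ⟨t, ht⟩) ⟨t, hFY ht, rfl⟩

end Pool.Agent.P.MP_9682d1_al.C
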