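import Mathlib
import Pool.Agent.P.MP_9682d1_al.C.Sand

set_option autoImplicit false

namespace Pool.Agent.P.MP_9682d1_al.C

variable {G : Type*} [Group G]

/-- a pair of class at most 2 -/
def P2 (x y : G) : Prop := Commute (cm x y) x ∧ Commute (cm x y) y

theorem P2.symm {x y : G} (h : P2 x y) : P2 y x := by
  rw [P2, ← cm_inv]
  exact ⟨h.2.inv_left, h.1.inv_left⟩

theorem p2_of_eng {x y : G} (h1 : cm (cm x y) y = 1) (h2 : cm (cm y x) x = 1) : P2 x y := by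
  rw [cm_eq_one] at h1 h2
  rw [← cm_inv] at h2
  exact ⟨by simpa using h2, h1⟩

theorem comm_cm {g x y : G} (h1 : Commute g x) (h2 : Commute g y) : Commute g (cm x y) :=
  h1.inv_right.mul_right ((h2.inv_right.mul_right h1).mul_right h2)

theorem comm_cj {g x y : G} (h1 : Commute g x) (h2 : Commute g y) : Commute g (y⁻¹ * x * y) :=
  (h2.inv_right.mul_right h1).mul_right h2

theorem cj_of_comm {g k : G} (h : Commute g k) : k⁻¹ * g * k = g := by
  rw [mul_assoc, h.eq]; group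

theorem comm_conj {x y : G} (h : Commute x y) (k : G) :
    Commute (k⁻¹ * x * k) (k⁻¹ * y * k) := by
  rw [← cm_eq_one, ← cj_cm, cm_eq_one.mpr h]; group

theorem cm_inv_left {x y : G} (h : Commute (cm x y) x) : cm x⁻¹ y = (cm x y)⁻¹ := by
  rw [← cj_of_comm h.inv_right]; simp only [cm]; group

theorem cm_inv_right {x y : G} (h : Commute (cm x y) y) : cm x y⁻¹ = (cm x y)⁻¹ := by
  rw [← cj_of_comm h.inv_right]; simp only [cm]; group

theorem P2.cj {x y : G} (h : P2 x y) : Commute x (y⁻¹ * x * y) := by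
  rw [cj_eq]
  exact (Commute.refl x).mul_right h.1.symm

theorem P2.quad {x y : G} (h : P2 x y) : y * x * y⁻¹ = x * x * (y⁻¹ * x * y)⁻¹ := by
  have := cj_eq x y⁻¹
  rw [inv_inv, cm_inv_right h.2] at this
  rw [this, cj_eq, ← h.1.eq]
  group

theorem comm_cm_of {h u c : G} (h1 : Commute h u) (h2 : Commute (cm h c) u)
    (h3 : Commute (cm h c) c) : Commute h (cm c u) := by
  have e1 : c * h * c⁻¹ = h * (cm h c)⁻¹ := by
    have := cj_eq h c⁻¹
    rwa [inv_inv, cm_inv_right h3] at this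
  have e2 : Commute (c * h * c⁻¹) u := by
    rw [e1]
    exact h1.mul_left h2.inv_left
  have e3 := comm_conj e2 c
  rw [show c⁻¹ * (c * h * c⁻¹) * c = h by group] at e3
  rw [← cm_inv]
  exact (h1.inv_right.mul_right e3).inv_right

theorem Cl3.comm {S : Set G} (h : Cl3 S) {a b c d : G} (ha : a ∈ Subgroup.closure S)
    (hb : b ∈ Subgroup.closure S) (hc : c ∈ Subgroup.closure S) (hd : d ∈ Subgroup.closure S) :
    Commute (cm (cm a b) c) d := cm_eq_one.mp (h.closure a ha b hb c hc d hd)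

theorem m1 (x y z : G) : x ∈ Subgroup.closure ({x, y, z} : Set G) :=
  Subgroup.subset_closure (by simp)

theorem m2 (x y z : G) : y ∈ Subgroup.closure ({x, y, z} : Set G) :=
  Subgroup.subset_closure (by simp)

theorem m3 (x y z : G) : z ∈ Subgroup.closure ({x, y, z} : Set G) :=
  Subgroup.subset_closure (by simp)

theorem ab_tri {x y z : G} (h : Cl3 ({x, y, z} : Set G)) (hy : P2 x y) (hz : P2 x z) {k : G}
    (hk : k ∈ Subgroup.closure ({x, y, z} : Set G)) : Commute x (k⁻¹ * x * k) := by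
  rw [cj_eq]
  refine (Commute.refl x).mul_right ?_
  induction hk using Subgroup.closure_induction with
  | mem k hk =>
    rcases hk with rfl | rfl | rfl
    · simp
    · exact hy.1.symm
    · exact hz.1.symm
  | one => simp
  | mul k l hk hl ihk ihl =>
    rw [cm_mul_right, cj_eq]
    exact ihl.mul_right (ihk.mul_right (h.comm (m1 x y z) hk hl (m1 x y z)).symm)
  | inv k hk ih =>
    rw [show cm x k⁻¹ = (k⁻¹⁻¹ * cm x k * k⁻¹)⁻¹ by simp only [cm]; group, cj_eq]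
    exact (ih.mul_right (h.comm (m1 x y z) hk (inv_mem hk) (m1 x y z)).symm).inv_right

theorem zc {p q c : G} (h : Cl3 ({p, q, c} : Set G)) (h1 : P2 p q) (h2 : P2 q c)
    (h3 : Commute p (c⁻¹ * q * c)) : Commute (cm p q) c := by
  have e1 : Commute (cm p q) (cm q c) :=
    h1.2.inv_right.mul_right (comm_cm h3.symm h2.cj.symm).symm
  have e2 := cm_eq_one.mpr h3
  rw [cj_eq, cm_mul_right, cj_of_comm e1, mul_eq_one_iff_inv_eq, cm_inv] at e2
  rw [← e2]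
  exact h.comm (m2 _ _ _) (m3 _ _ _) (m1 _ _ _) (m3 _ _ _)

theorem cm_sandwich {n m n' a : G} (h : Commute n a) (h' : Commute n' a) :
    cm (n * m * n') a = n'⁻¹ * cm m a * n' := by
  rw [cm_mul_left, cm_mul_left, cm_eq_one.mpr h, cm_eq_one.mpr h']
  group

theorem core {a p c d : G} (ha : Cl3 ({a, c, d} : Set G)) (hp : Cl3 ({p, c, d} : Set G))
    (cd : P2 c d) (ac : P2 a c) (ad : P2 a d) (pd : P2 p d) (pc : P2 (d * p * d⁻¹) c)
    (pc' : P2 p c) (uc : P2 (a⁻¹ * p) c) (ud : P2 (a⁻¹ * p) d)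
    (h0 : Commute a p) (h1 : Commute a (c⁻¹ * p * c)) (h1' : Commute a (c * p * c⁻¹))
    (h2' : Commute a (d * p * d⁻¹))
    (h3 : Commute a ((d⁻¹ * c * d)⁻¹ * p * (d⁻¹ * c * d)))
    (h4 : Commute a ((c * d * c⁻¹)⁻¹ * p * (c * d * c⁻¹)))
    (q : P2 ((c * d)⁻¹ * p * (c * d)) a)
    (tc : Cl3 ({(c * d)⁻¹ * p * (c * d), a, c} : Set G))
    (td : Cl3 ({(c * d)⁻¹ * p * (c * d), a, d} : Set G)) :
    Commute (cm (cm (a⁻¹ * p) c) d) (a⁻¹ * p) ∧ Commute (cm (cm (a⁻¹ * p) c) d) c ∧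
      Commute (cm (cm (a⁻¹ * p) c) d) d := by
  set B := (c * d)⁻¹ * p * (c * d) with hB
  set A := (c * d)⁻¹ * a * (c * d) with hA
  have zc' : Commute (cm B a) c := zc tc q ac (by
    have := (comm_conj h4 c).symm
    rwa [show c⁻¹ * ((c * d * c⁻¹)⁻¹ * p * (c * d * c⁻¹)) * c = B by rw [hB]; group] at this)
  have zd : Commute (cm B a) d := zc td q ad (by
    have := (comm_conj h1 d).symm
    rwa [show d⁻¹ * (c⁻¹ * p * c) * d = B by rw [hB]; group] at this)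
  have zp : Commute (cm B a) p := by
    have := comm_cj q.1 (zc'.mul_right zd).inv_right
    rwa [show (c * d)⁻¹⁻¹ * B * (c * d)⁻¹ = p by rw [hB]; group] at this
  -- the element w = [p, [c, d]]
  have wc : ∀ k ∈ Subgroup.closure ({p, c, d} : Set G), Commute (cm p (cm c d)) k := by
    intro k hk
    rw [← cm_inv]
    exact (hp.comm (m2 _ _ _) (m3 _ _ _) (m1 _ _ _) hk).inv_left
  have wa : Commute (cm p (cm c d)) a := by
    have e := cj_of_comm (wc c (m2 _ _ _))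
    rw [cj_cm, cj_of_comm cd.1] at e
    rw [← e, show cm (c⁻¹ * p * c) (cm c d) = (c⁻¹ * p * c)⁻¹ *
      ((d⁻¹ * c * d)⁻¹ * p * (d⁻¹ * c * d)) by simp only [cm]; group]
    exact (h1.inv_right.mul_right h3).symm
  have eB : B = (d * c)⁻¹ * p * (d * c) * cm p (cm c d) := by
    have e := cj_of_comm (wc (d * c) (mul_mem (m3 _ _ _) (m2 _ _ _)))
    rw [cj_cm, cj_of_comm (cd.2.mul_right cd.1)] at e
    rw [← e, hB]
    simp only [cm]
    group
  have e1 : c * d * p * (c * d)⁻¹ = (d * p * d⁻¹) * (d * p * d⁻¹) * B *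
      ((cm p (cm c d))⁻¹ * (c⁻¹ * p * c)⁻¹ * (c⁻¹ * p * c)⁻¹) := by
    have e0 : c⁻¹ * (d * p * d⁻¹) * c =
        (c⁻¹ * p * c) * (c⁻¹ * p * c) * ((d * c)⁻¹ * p * (d * c))⁻¹ := by
      rw [pd.quad]; group
    rw [show c * d * p * (c * d)⁻¹ = c * (d * p * d⁻¹) * c⁻¹ by group, pc.quad, e0, eB]
    group
  have e2 : cm p A = cm B a := by
    have n2 : Commute (cm B a)
        ((cm p (cm c d))⁻¹ * (c⁻¹ * p * c)⁻¹ * (c⁻¹ * p * c)⁻¹) :=
      ((comm_cm zp (comm_cm zc' zd)).inv_right.mul_right (comm_cj zp zc').inv_right).mul_right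
        (comm_cj zp zc').inv_right
    rw [← cj_of_comm (zc'.mul_right zd), ← cj_of_comm n2,
      ← cm_sandwich (h2'.mul_right h2').symm
        ((wa.symm.inv_right.mul_right h1.inv_right).mul_right h1.inv_right).symm, ← e1, cj_cm, hA]
    congr 1
    group
  have aA : Commute a A := ab_tri ha ac ad (mul_mem (m2 _ _ _) (m3 _ _ _))
  have pB : Commute p B := ab_tri hp pc' pd (mul_mem (m2 _ _ _) (m3 _ _ _))
  have AB : Commute A B := comm_conj h0 _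
  have p1 : Commute p (c⁻¹ * a * c) := by
    have := (comm_conj h1' c).symm
    rwa [show c⁻¹ * (c * p * c⁻¹) * c = p by group] at this
  have p2 : Commute p (d⁻¹ * a * d) := by
    have := (comm_conj h2' d).symm
    rwa [show d⁻¹ * (d * p * d⁻¹) * d = p by group] at this
  have uu : Commute (a⁻¹ * p) (A⁻¹ * B) := by
    have f1 : B * a⁻¹ = a⁻¹ * B * (cm B a)⁻¹ := by
      rw [← cm_inv_right q.2]; simp only [cm]; group
    have f2 : p * A⁻¹ = A⁻¹ * p * (cm B a)⁻¹ := by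
      rw [← e2, ← cm_inv_right (by
        rw [e2]; exact comm_cj q.2 (zc'.mul_right zd))]
      simp only [cm]; group
    calc a⁻¹ * p * (A⁻¹ * B) = a⁻¹ * (p * A⁻¹) * B := by group
      _ = a⁻¹ * A⁻¹ * p * ((cm B a)⁻¹ * B) := by rw [f2]; group
      _ = A⁻¹ * a⁻¹ * (p * B) * (cm B a)⁻¹ := by
          rw [q.1.inv_left.eq, aA.inv_left.inv_right.eq]; group
      _ = A⁻¹ * (a⁻¹ * B) * (p * (cm B a)⁻¹) := by rw [pB.eq]; group
      _ = A⁻¹ * (a⁻¹ * B * (cm B a)⁻¹) * p := by rw [← zp.inv_left.eq]; group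
      _ = A⁻¹ * B * (a⁻¹ * p) := by rw [← f1]; group
  have al : ∀ k ∈ Subgroup.closure ({a, c, d} : Set G), Commute (cm (cm a c) d) k :=
    fun k hk => ha.comm (m1 _ _ _) (m2 _ _ _) (m3 _ _ _) hk
  have be : ∀ k ∈ Subgroup.closure ({p, c, d} : Set G), Commute (cm (cm p c) d) k :=
    fun k hk => hp.comm (m1 _ _ _) (m2 _ _ _) (m3 _ _ _) hk
  have e3 : cm (cm (cm a c) d) p = (cm B a)⁻¹ := by
    rw [show cm (cm a c) d = (c⁻¹ * a * c)⁻¹ * a * (d⁻¹ * a * d)⁻¹ * A * 1 by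
      rw [hA]; simp only [cm]; group,
      cm_sandwich ((p1.inv_right.mul_right h0.symm).mul_right p2.inv_right).symm
        (Commute.one_left p), ← e2, cm_inv]
    group
  have e4 : Commute (cm (cm a c) d) (cm p c) :=
    comm_cm_of (al c (m2 _ _ _)) (e3 ▸ zc'.inv_left) (e3 ▸ zp.inv_left)
  have e5 : cm (a⁻¹ * p) c = (cm a c)⁻¹ * cm p c := by
    have : Commute (cm a c) p := (h0.symm.inv_right.mul_right p1).symm
    rw [cm_mul_left, cm_inv_left ac.1, cj_of_comm this.inv_left]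
  have e6 : cm (cm (a⁻¹ * p) c) d = (cm (cm a c) d)⁻¹ * cm (cm p c) d := by
    rw [e5, cm_mul_left, cm_inv_left (al _ (cm_mem (m1 _ _ _) (m2 _ _ _))),
      cj_of_comm e4.inv_left]
  refine ⟨?_, ?_, ?_⟩
  · rw [show cm (cm (a⁻¹ * p) c) d = (c⁻¹ * (a⁻¹ * p) * c)⁻¹ * (a⁻¹ * p) *
      (d⁻¹ * (a⁻¹ * p) * d)⁻¹ * (A⁻¹ * B) by rw [hA, hB]; simp only [cm]; group]
    exact (((uc.cj.inv_right.mul_right (Commute.refl _)).mul_right ud.cj.inv_right).mul_right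
      uu).symm
  · rw [e6]
    exact (al c (m2 _ _ _)).inv_left.mul_left (be c (m2 _ _ _))
  · rw [e6]
    exact (al d (m3 _ _ _)).inv_left.mul_left (be d (m3 _ _ _))

theorem hall_witt (x y z : G) : y⁻¹ * cm (cm x y⁻¹) z * y * (z⁻¹ * cm (cm y z⁻¹) x * z) *
    (x⁻¹ * cm (cm z x⁻¹) y * x) = 1 := by
  simp only [cm]; group

theorem cl3_of {u c d : G} (uc : P2 u c) (ud : P2 u d) (cd : P2 c d)
    (h1 : Commute (cm (cm u c) d) u ∧ Commute (cm (cm u c) d) c ∧ Commute (cm (cm u c) d) d)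
    (h2 : Commute (cm (cm u d) c) u ∧ Commute (cm (cm u d) c) d ∧ Commute (cm (cm u d) c) c) :
    Cl3 ({u, c, d} : Set G) := by
  let Z : G → Prop := fun t => Commute t u ∧ Commute t c ∧ Commute t d
  have inv : ∀ t, Z t → Z t⁻¹ := fun t h => ⟨h.1.inv_left, h.2.1.inv_left, h.2.2.inv_left⟩
  have one : ∀ {g k : G}, Commute g k → Z (cm g k) := fun h => by
    rw [cm_eq_one.mpr h]
    exact ⟨Commute.one_left _, Commute.one_left _, Commute.one_left _⟩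
  have z1 : Z (cm (cm u c) d) := h1
  have z2 : Z (cm (cm u d) c) := ⟨h2.1, h2.2.2, h2.2.1⟩
  have z1' : cm (cm c u) d = (cm (cm u c) d)⁻¹ := by
    rw [← cm_inv u c, cm_inv_left (comm_cm z1.1 z1.2.1)]
  have z2' : cm (cm d u) c = (cm (cm u d) c)⁻¹ := by
    rw [← cm_inv u d, cm_inv_left (comm_cm z2.1 z2.2.2)]
  have z3 : Z (cm (cm c d) u) := by
    have e := hall_witt c d⁻¹ u
    have e1 : cm d⁻¹ u⁻¹ = cm d u := by
      rw [cm_inv_right (by rw [cm_inv_left ud.symm.1]; exact ud.symm.2.inv_left),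
        cm_inv_left ud.symm.1, inv_inv]
    have e2 : cm (cm u c⁻¹) d⁻¹ = cm (cm u c) d := by
      rw [cm_inv_right uc.2, cm_inv, cm_inv_right (by rw [z1']; exact z1.2.2.inv_left), z1',
        inv_inv]
    rw [inv_inv, e1, e2, z2', cj_of_comm z2.1.inv_left, cj_of_comm z1.2.1, mul_assoc,
      mul_eq_one_iff_eq_inv] at e
    have z4 : Z ((cm (cm u d) c)⁻¹ * cm (cm u c) d)⁻¹ := inv _
      ⟨z2.1.inv_left.mul_left z1.1, z2.2.1.inv_left.mul_left z1.2.1,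
        z2.2.2.inv_left.mul_left z1.2.2⟩
    rw [show cm (cm c d) u = d⁻¹ * (d * cm (cm c d) u * d⁻¹) * d by group, e, cj_of_comm z4.2.2]
    exact z4
  have z3' : cm (cm d c) u = (cm (cm c d) u)⁻¹ := by
    rw [← cm_inv c d, cm_inv_left (comm_cm z3.2.1 z3.2.2)]
  have key : ∀ x ∈ ({u, c, d} : Set G), ∀ y ∈ ({u, c, d} : Set G), ∀ z ∈ ({u, c, d} : Set G),
      Z (cm (cm x y) z) := by
    simp only [Set.mem_insert_iff, Set.mem_singleton_iff, forall_eq_or_imp, forall_eq, cm_self]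
    have o := fun k : G => one (Commute.one_left k)
    exact ⟨⟨⟨o _, o _, o _⟩, ⟨one uc.1, one uc.2, z1⟩, one ud.1, z2, one ud.2⟩,
      ⟨⟨one uc.symm.2, one uc.symm.1, z1' ▸ inv _ z1⟩, ⟨o _, o _, o _⟩, z3, one cd.1, one cd.2⟩,
      ⟨one ud.symm.2, z2' ▸ inv _ z2, one ud.symm.1⟩,
      ⟨z3' ▸ inv _ z3, one cd.symm.2, one cd.symm.1⟩, o _, o _, o _⟩
  intro x hx y hy z hz w hw
  obtain ⟨k1, k2, k3⟩ := key x hx y hy z hz
  rw [cm_eq_one]
  rcases hw with rfl | rfl | rfl <;> assumption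

theorem Cj.inv {X : Set G} (h : Cj X) {x : G} (hx : x ∈ X) (g : G) : g * x * g⁻¹ ∈ X := by
  simpa using h x hx g⁻¹

theorem Cl3.p2 {a b c : G} (h : Cl3 ({a, b, c} : Set G)) : P2 (cm a b) c := by
  refine ⟨?_, h.comm (m1 _ _ _) (m2 _ _ _) (m3 _ _ _) (m3 _ _ _)⟩
  exact h.comm (m1 _ _ _) (m2 _ _ _) (m3 _ _ _) (cm_mem (m1 _ _ _) (m2 _ _ _))

theorem Cl3.swap {a b c : G} (h : Cl3 ({a, b, c} : Set G)) : Cl3 ({a, c, b} : Set G) := by
  rwa [Set.pair_comm]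

theorem Cl3.rot {a b c : G} (h : Cl3 ({a, b, c} : Set G)) : Cl3 ({b, c, a} : Set G) := by
  rwa [Set.pair_comm, Set.insert_comm]

theorem s1_half {X C D : Set G} (hX : Cj X) (hC : Cj C) (hD : Cj D)
    (xx : ∀ a ∈ X, ∀ b ∈ X, P2 a b) (xc : ∀ a ∈ X, ∀ c ∈ C, P2 a c)
    (xd : ∀ a ∈ X, ∀ d ∈ D, P2 a d)
    (tc : ∀ a ∈ X, ∀ b ∈ X, ∀ c ∈ C, Cl3 ({a, b, c} : Set G))
    (td : ∀ a ∈ X, ∀ b ∈ X, ∀ d ∈ D, Cl3 ({a, b, d} : Set G)) {a b c d : G} (ha : a ∈ X)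
    (hb : b ∈ X) (hc : c ∈ C) (hd : d ∈ D) (cd : P2 c d)
    (t : ∀ a ∈ X, Cl3 ({a, c, d} : Set G)) :
    Commute (cm (cm (cm a b) c) d) (cm a b) ∧ Commute (cm (cm (cm a b) c) d) c ∧
      Commute (cm (cm (cm a b) c) d) d := by
  have hp := hX a ha b
  have r : ∀ {y : G}, Cl3 ({a, b, y} : Set G) → P2 a y →
      Commute a (y⁻¹ * (b⁻¹ * a * b) * y) ∧ Commute a (y * (b⁻¹ * a * b) * y⁻¹) := by
    intro y h1 h2
    have e1 := ab_tri h1 (xx a ha b hb) h2 (mul_mem (m2 a b y) (m3 a b y))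
    have e2 := ab_tri h1 (xx a ha b hb) h2 (mul_mem (m2 a b y) (inv_mem (m3 a b y)))
    simp only [mul_inv_rev, inv_inv, mul_assoc] at e1 e2 ⊢
    exact ⟨e1, e2⟩
  have rc := fun y hy => r (tc a ha b hb y hy) (xc a ha y hy)
  have rd := fun y hy => r (td a ha b hb y hy) (xd a ha y hy)
  exact core (t a ha) (t _ hp) cd (xc a ha c hc) (xd a ha d hd) (xd _ hp d hd)
    (xc _ (hX.inv hp d) c hc) (xc _ hp c hc) (tc a ha b hb c hc).p2 (td a ha b hb d hd).p2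
    (xx a ha b hb).cj (rc c hc).1 (rc c hc).2 (rd d hd).2 (rc _ (hC c hc d)).1
    (rd _ (hD.inv hd c)).1 (xx _ (hX _ hp _) a ha) (tc _ (hX _ hp _) a ha c hc)
    (td _ (hX _ hp _) a ha d hd)

theorem s1 {X C D : Set G} (hX : Cj X) (hC : Cj C) (hD : Cj D)
    (xx : ∀ a ∈ X, ∀ b ∈ X, P2 a b) (xc : ∀ a ∈ X, ∀ c ∈ C, P2 a c)
    (xd : ∀ a ∈ X, ∀ d ∈ D, P2 a d)
    (tc : ∀ a ∈ X, ∀ b ∈ X, ∀ c ∈ C, Cl3 ({a, b, c} : Set G))
    (td : ∀ a ∈ X, ∀ b ∈ X, ∀ d ∈ D, Cl3 ({a, b, d} : Set G)) {a b c d : G} (ha : a ∈ X)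
    (hb : b ∈ X) (hc : c ∈ C) (hd : d ∈ D) (cd : P2 c d)
    (t : ∀ a ∈ X, Cl3 ({a, c, d} : Set G)) : Cl3 ({cm a b, c, d} : Set G) :=
  cl3_of (tc a ha b hb c hc).p2 (td a ha b hb d hd).p2 cd
    (s1_half hX hC hD xx xc xd tc td ha hb hc hd cd t)
    (s1_half hX hD hC xx xd xc td tc ha hb hd hc cd.symm fun a ha => (t a ha).swap)

/-- the set of commutators of two elements of `X` -/
def cms (X : Set G) : Set G := {u | ∃ a ∈ X, ∃ b ∈ X, u = cm a b}

theorem Good.p2 {X : Set G} (h : Good X) : ∀ a ∈ X, ∀ b ∈ X, P2 a b :=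
  fun a ha b hb => p2_of_eng (h.eng a ha b hb) (h.eng b hb a ha)

/-- (C3) -/
theorem Good.step {X : Set G} (h : Good X) : Good (X ∪ cms X) := by
  have hU : Cj (cms X) := by
    rintro _ ⟨a, ha, b, hb, rfl⟩ g
    exact ⟨_, h.cj a ha g, _, h.cj b hb g, cj_cm a b g⟩
  have ux : ∀ u ∈ cms X, ∀ c ∈ X, P2 u c := by
    rintro _ ⟨a, ha, b, hb, rfl⟩ c hc
    exact (h.cl3 a ha b hb c hc).p2
  have xu : ∀ c ∈ X, ∀ u ∈ cms X, P2 c u := fun c hc u hu => (ux u hu c hc).symm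
  have uxx : ∀ u ∈ cms X, ∀ c ∈ X, ∀ d ∈ X, Cl3 ({u, c, d} : Set G) := by
    rintro _ ⟨a, ha, b, hb, rfl⟩ c hc d hd
    exact s1 h.cj h.cj h.cj h.p2 h.p2 h.p2 h.cl3 h.cl3 ha hb hc hd (h.p2 c hc d hd)
      fun a ha => h.cl3 a ha c hc d hd
  have xxu : ∀ c ∈ X, ∀ d ∈ X, ∀ u ∈ cms X, Cl3 ({c, d, u} : Set G) :=
    fun c hc d hd u hu => (uxx u hu c hc d hd).rot
  have uu : ∀ u ∈ cms X, ∀ v ∈ cms X, P2 u v := by
    rintro _ ⟨a, ha, b, hb, rfl⟩ c hc
    exact (xxu a ha b hb c hc).p2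
  have uux : ∀ u ∈ cms X, ∀ v ∈ cms X, ∀ d ∈ X, Cl3 ({u, v, d} : Set G) := by
    rintro _ ⟨a, ha, b, hb, rfl⟩ c hc d hd
    exact s1 h.cj hU h.cj h.p2 xu h.p2 xxu h.cl3 ha hb hc hd (ux c hc d hd)
      fun a ha => (xxu a ha d hd c hc).swap
  have uuu : ∀ u ∈ cms X, ∀ v ∈ cms X, ∀ w ∈ cms X, Cl3 ({u, v, w} : Set G) := by
    rintro _ ⟨a, ha, b, hb, rfl⟩ c hc d hd
    exact s1 h.cj hU hU h.p2 xu xu xxu xxu ha hb hc hd (uu c hc d hd)
      fun a ha => (uux c hc d hd a ha).rot.rot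
  refine ⟨?_, ?_, ?_⟩
  · rintro x (hx | hx) g
    · exact Or.inl (h.cj x hx g)
    · exact Or.inr (hU x hx g)
  · rintro x (hx | hx) y (hy | hy) <;> rw [cm_eq_one]
    · exact (h.p2 x hx y hy).2
    · exact (xu x hx y hy).2
    · exact (ux x hx y hy).2
    · exact (uu x hx y hy).2
  · rintro x (hx | hx) y (hy | hy) z (hz | hz)
    · exact h.cl3 x hx y hy z hz
    · exact xxu x hx y hy z hz
    · exact (xxu x hx z hz y hy).swap
    · exact (uux y hy z hz x hx).rot.rot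
    · exact uxx x hx y hy z hz
    · exact (uux x hx z hz y hy).swap
    · exact uux x hx y hy z hz
    · exact uuu x hx y hy z hz

/-- (C3) + (C4): a good set generates a locally nilpotent group -/
theorem Good.ln {X : Set G} (h : Good X) : LN X := by
  let Y : ℕ → Set G := fun n => (fun S => S ∪ cms S)^[n] X
  have ys : ∀ n, Y (n + 1) = Y n ∪ cms (Y n) := fun n => Function.iterate_succ_apply' _ _ _
  have hY : ∀ n, Good (Y n) := by
    intro n
    induction n with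
    | zero => exact h
    | succ n ih => rw [ys]; exact ih.step
  have mono : Monotone Y := monotone_nat_of_le_succ fun n => by
    rw [ys]; exact Set.subset_union_left
  have three : ∀ x ∈ ⋃ n, Y n, ∀ y ∈ ⋃ n, Y n, ∀ z ∈ ⋃ n, Y n,
      ∃ n, x ∈ Y n ∧ y ∈ Y n ∧ z ∈ Y n := by
    simp only [Set.mem_iUnion]
    rintro x ⟨i, hi⟩ y ⟨j, hj⟩ z ⟨k, hk⟩
    exact ⟨i + j + k, mono (by omega) hi, mono (by omega) hj, mono (by omega) hk⟩
  refine (SC.ln (Y := ⋃ n, Y n) ⟨fun x hx y hy => ?_, fun x hx y hy => ?_,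
    fun x hx y hy z hz => ?_⟩).mono (Set.subset_iUnion Y 0)
  · obtain ⟨n, h1, h2, -⟩ := three x hx y hy y hy
    exact Set.mem_iUnion.mpr ⟨n + 1, by rw [ys]; exact Or.inr ⟨x, h1, y, h2, rfl⟩⟩
  · obtain ⟨n, h1, h2, -⟩ := three x hx y hy y hy
    exact (hY n).eng x h1 y h2
  · obtain ⟨n, h1, h2, h3⟩ := three x hx y hy z hz
    exact (hY n).cl3 x h1 y h2 z h3

end Pool.Agent.P.MP_9682d1_al.C
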