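import Mathlib
import Pool.Agent.P.MP_9682d1_al.C.Defs

set_option autoImplicit false

namespace Pool.Agent.P.MP_9682d1_al.C

universe u

variable {G : Type*} [Group G]

theorem map_iter {Q : Type*} [Group Q] (f : G →* Q) (s : G) (n : ℕ) (g : G) :
    f ((fun c => cm c s)^[n] g) = (fun c => cm c (f s))^[n] (f g) := by
  induction n generalizing g with
  | zero => rfl
  | succ n ih => rw [Function.iterate_succ_apply, ih, map_cm, Function.iterate_succ_apply]

theorem cj_iter (s h : G) (n : ℕ) (g : G) :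
    h⁻¹ * (fun c => cm c s)^[n] g * h = (fun c => cm c (h⁻¹ * s * h))^[n] (h⁻¹ * g * h) := by
  induction n generalizing g with
  | zero => rfl
  | succ n ih => rw [Function.iterate_succ_apply, ih, cj_cm, Function.iterate_succ_apply]

theorem iter_one (s : G) (n : ℕ) : (fun c => cm c s)^[n] 1 = 1 :=
  Function.iterate_fixed (one_cm s) n

theorem iter_le {s g : G} {n m : ℕ} (h : (fun c => cm c s)^[n] g = 1) (hm : n ≤ m) :
    (fun c => cm c s)^[m] g = 1 := by
  obtain ⟨k, rfl⟩ := Nat.exists_eq_add_of_le' hm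
  rw [Function.iterate_add_apply, h, iter_one]

theorem RE.iter {n : ℕ} {a : G} (h : RE n a) (x : G) : (fun c => cm c x)^[n] a = 1 := h x

theorem RE.mono {n m : ℕ} {a : G} (h : RE n a) (hm : n ≤ m) : RE m a :=
  fun x => iter_le (h.iter x) hm

theorem RE.cj {n : ℕ} {a : G} (h : RE n a) (g : G) : RE n (g⁻¹ * a * g) := by
  intro x
  have := cj_iter (g * x * g⁻¹) g n a
  rw [h.iter, show g⁻¹ * (g * x * g⁻¹) * g = x by group] at this
  exact this.symm.trans (by simp)

theorem RE.map {Q : Type*} [Group Q] {f : G →* Q} (hf : Function.Surjective f) {n : ℕ} {a : G}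
    (h : RE n a) : RE n (f a) := by
  intro x
  obtain ⟨x, rfl⟩ := hf x
  exact (map_iter f x n a).symm.trans (by rw [h.iter, map_one])

theorem RE.of_map {Q : Type*} [Group Q] {f : G →* Q} (hf : Function.Injective f) {n : ℕ} {a : G}
    (h : RE n (f a)) : RE n a :=
  fun x => hf ((map_iter f x n a).trans (by rw [h.iter, map_one]))

/-- Heineken: the inverse of a right `n`-Engel element is left `(n+1)`-Engel -/
theorem RE.left {n : ℕ} {a : G} (h : RE (n + 1) a) (g : G) :
    (fun c => cm c a⁻¹)^[n + 2] g = 1 := by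
  have h1 := (h.cj g).iter a⁻¹
  have h2 := cj_iter a⁻¹ a⁻¹ n (cm (g⁻¹ * a * g) a⁻¹)
  rw [Function.iterate_succ_apply] at h1
  rw [h1, show a⁻¹⁻¹ * a⁻¹ * a⁻¹ = a⁻¹ by group] at h2
  rw [Function.iterate_succ_apply, Function.iterate_succ_apply,
    show cm (cm g a⁻¹) a⁻¹ = a⁻¹⁻¹ * cm (g⁻¹ * a * g) a⁻¹ * a⁻¹ by simp only [cm]; group, ← h2]
  simp

theorem RE.le_inv {n : ℕ} {a : G} (h : RE n a) : LE a⁻¹ :=
  fun g => ⟨n + 2, (h.mono (Nat.le_succ n)).left g⟩

theorem LE.map {Q : Type*} [Group Q] {f : G →* Q} (hf : Function.Surjective f) {s : G}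
    (h : LE s) : LE (f s) := by
  intro g
  obtain ⟨g, rfl⟩ := hf g
  obtain ⟨n, hn⟩ := h g
  exact ⟨n, by rw [← map_iter, hn, map_one]⟩

theorem LE.of_map {Q : Type*} [Group Q] {f : G →* Q} (hf : Function.Injective f) {s : G}
    (h : LE (f s)) : LE s := by
  intro g
  obtain ⟨n, hn⟩ := h (f g)
  exact ⟨n, hf (by rw [map_iter, hn, map_one])⟩

theorem LE.cj {s : G} (h : LE s) (k : G) : LE (k⁻¹ * s * k) := by
  intro g
  obtain ⟨n, hn⟩ := h (k * g * k⁻¹)
  have := cj_iter s k n (k * g * k⁻¹)
  rw [hn, show k⁻¹ * (k * g * k⁻¹) * k = g by group] at this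
  exact ⟨n, this.symm.trans (by simp)⟩

theorem cm_mem_lcs {M : Subgroup G} {n : ℕ} {g k : G} (hg : g ∈ M.lowerCentralSeries n)
    (hk : k ∈ M) : cm g k ∈ M.lowerCentralSeries (n + 1) := by
  rw [cm_eq_bracket]
  exact Subgroup.commutator_mem_commutator (inv_mem hg) (inv_mem hk)

theorem cj_closure {E : Set G} {L : Subgroup G} {s : G} (h : ∀ e ∈ E, s⁻¹ * e * s ∈ L) {g : G}
    (hg : g ∈ Subgroup.closure E) : s⁻¹ * g * s ∈ L := by
  have : Subgroup.closure E ≤ L.comap (MulAut.conj s⁻¹).toMonoidHom := by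
    rw [Subgroup.closure_le]
    intro e he
    simpa using h e he
  simpa using this hg

theorem Cj.normal {X : Set G} (h : Cj X) : (Subgroup.closure X).Normal :=
  ⟨fun g hg k => by
    simpa using cj_closure (s := k⁻¹) (fun e he => Subgroup.subset_closure (h e he _)) hg⟩

theorem cj_normal (N : Subgroup G) [hN : N.Normal] : Cj (N : Set G) :=
  fun x hx g => by simpa using hN.conj_mem x hx g⁻¹

theorem triv_step {E : Set G} {s : G} (hE : ∀ e ∈ E, cm e s ∈ E) (hs : LE s)
    (nil : Group.IsNilpotent (Subgroup.closure E))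
    (hz : ∀ q : G, (∀ e ∈ E, cm q e = 1) → cm q s = 1 → q = 1) : (∀ e ∈ E, e = 1) ∧ s = 1 := by
  set M := Subgroup.closure E with hM
  have h1 : M.map (MulAut.conj s⁻¹).toMonoidHom ≤ M := by
    rintro _ ⟨g, hg, rfl⟩
    have := cj_closure (L := M) (s := s) (fun e he => by
      rw [show s⁻¹ * e * s = e * cm e s by simp [cm]]
      exact mul_mem (Subgroup.subset_closure he) (Subgroup.subset_closure (hE e he))) hg
    simpa using this
  have h2 : ∀ n, ∀ z ∈ M.lowerCentralSeries n, cm z s ∈ M.lowerCentralSeries n := by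
    intro n z hz
    have := Subgroup.lowerCentralSeries_mono n h1
    simp only [← Subgroup.map_lowerCentralSeries] at this
    exact mul_mem (inv_mem hz) (by simpa using this ⟨z, hz, rfl⟩)
  have h3 : ∀ n, M.lowerCentralSeries (n + 1) = ⊥ → M.lowerCentralSeries n = ⊥ := by
    intro n hn
    rw [eq_bot_iff]
    intro z hz'
    obtain ⟨k, hk⟩ := hs z
    induction k generalizing z with
    | zero => exact hk
    | succ k ih =>
      refine hz z (fun e he => ?_) (ih (h2 n z hz') hk)
      rw [← Subgroup.mem_bot, ← hn]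
      exact cm_mem_lcs hz' (Subgroup.subset_closure he)
  obtain ⟨n, hn⟩ := (Subgroup.isNilpotent_iff_lowerCentralSeries M).mp nil
  have h4 : M = ⊥ := by
    induction n with
    | zero => exact hn
    | succ n ih => exact ih (h3 n hn)
  have h5 : ∀ e ∈ E, e = 1 := fun e he => by
    rw [← Subgroup.mem_bot, ← h4]
    exact Subgroup.subset_closure he
  exact ⟨h5, hz s (fun e he => by simp [h5 e he]) (by simp)⟩

/-- a left Engel element normalising a locally nilpotent subgroup -/
theorem ln_step {L : Subgroup G} (hL : LN (L : Set G)) {s : G} (hn : ∀ l ∈ L, s⁻¹ * l * s ∈ L)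
    (hs : LE s) : LN (insert s (L : Set G)) := by
  intro F hF hFL
  let E : Set G := ⋃ e ∈ F \ {s}, Set.range fun k => (fun c => cm c s)^[k] e
  have hE : E.Finite := by
    refine (hF.subset Set.sdiff_subset).biUnion fun e _ => ?_
    obtain ⟨n, hn⟩ := hs e
    refine ((Set.finite_le_nat n).image fun k => (fun c => cm c s)^[k] e).subset ?_
    rintro _ ⟨k, rfl⟩
    rcases le_total k n with h | h
    · exact ⟨k, h, rfl⟩
    · exact ⟨n, le_refl n, hn.trans (iter_le hn h).symm⟩
  have hEL : E ⊆ L := by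
    refine Set.iUnion₂_subset fun e he => ?_
    rintro _ ⟨k, rfl⟩
    induction k with
    | zero => exact (hFL he.1).resolve_left he.2
    | succ k ih =>
      simp only [Function.iterate_succ_apply']
      exact L.mul_mem (L.inv_mem ih) (hn _ ih)
  have hEs : ∀ e ∈ E, cm e s ∈ E := by
    intro e he
    obtain ⟨e', he', k, rfl⟩ := Set.mem_iUnion₂.mp he
    exact Set.mem_iUnion₂.mpr ⟨e', he', k + 1, by simp only [Function.iterate_succ_apply']⟩
  have hFE : F ⊆ insert s E := by
    intro e he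
    by_cases h : e = s
    · exact Or.inl h
    · exact Or.inr (Set.mem_iUnion₂.mpr ⟨e, ⟨he, h⟩, 0, rfl⟩)
  refine nil_mono (Subgroup.closure_mono hFE) ?_
  set H := Subgroup.closure (insert s E)
  have inj : Function.Injective H.subtype := H.subtype_injective
  refine nil_of_quot ((hE.insert s).preimage Subtype.val_injective.injOn)
    Subgroup.closure_closure_coe_preimage fun Q _ φ hφ hz => ?_
  let s' : H := ⟨s, Subgroup.subset_closure (Or.inl rfl)⟩
  have := triv_step (E := φ '' (H.subtype ⁻¹' E)) (s := φ s') (by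
      rintro _ ⟨e, he, rfl⟩
      exact ⟨cm e s', hEs _ he, map_cm φ e s'⟩) (LE.map hφ (LE.of_map inj hs))
    ((hL.preimage inj).image φ _ ((hE.preimage inj.injOn).image φ)
      (Set.image_mono (Set.preimage_mono hEL)))
    fun q h1 h2 => hz q fun t ht => by
      rcases ht with ht | ht
      · rwa [show t = s' from Subtype.ext ht]
      · exact h1 _ ⟨t, ht, rfl⟩
  rintro t (ht | ht)
  · rw [show t = s' from Subtype.ext ht, this.2]
  · exact this.1 _ ⟨t, ht, rfl⟩

theorem ln_sUnion {c : Set (Set G)} (hc : IsChain (· ⊆ ·) c) (hne : c.Nonempty) {R : Set G}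
    (h : ∀ T ∈ c, LN (T ∪ R)) : LN (⋃₀ c ∪ R) := by
  intro F hF hFc
  obtain ⟨T, hT, hFT⟩ := hc.directedOn.exists_mem_subset_of_finite_of_subset_sUnion hne
    (hF.subset (Set.sdiff_subset (t := R))) (Set.sdiff_subset_iff.mpr (by rwa [Set.union_comm]))
  exact h T hT F hF (by rw [Set.union_comm]; exact Set.sdiff_subset_iff.mp hFT)

theorem ln_ker {Q : Type*} [Group Q] (nil : Group.IsNilpotent Q) (ψ : G →* Q) {S : Set G}
    (hS : Cj S) (hE : ∀ s ∈ S, LE s) (hR : LN (ψ.ker : Set G)) : LN (S ∪ ψ.ker) := by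
  obtain ⟨T, -, hT⟩ := zorn_subset_nonempty {T | T ⊆ S ∧ LN (T ∪ ψ.ker)}
    (fun c hc h hne => ⟨⋃₀ c, ⟨Set.sUnion_subset fun T hT => (hc hT).1,
      ln_sUnion h hne fun T hT => (hc hT).2⟩, fun _ h => Set.subset_sUnion_of_mem h⟩) ∅
    ⟨Set.empty_subset _, by simpa using hR⟩
  set L := Subgroup.closure (T ∪ ψ.ker)
  have key : ∀ i, ∀ s ∈ S, ∀ l ∈ L, ψ (l⁻¹ * s) ∈ Subgroup.upperCentralSeries Q i → s ∈ L := by
    intro i
    induction i with
    | zero =>
      intro s _ l hl h
      rw [show s = l * (l⁻¹ * s) by group]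
      exact mul_mem hl (Subgroup.subset_closure (Or.inr h))
    | succ i ih =>
      intro s hs l hl h
      have h1 : LN (insert s (L : Set G)) := by
        refine ln_step hT.prop.2.closure (fun g hg => cj_closure ?_ hg) (hE s hs)
        rintro t (ht | ht)
        · refine ih _ (hS t (hT.prop.1 ht) s) (l⁻¹ * t * l)
            (mul_mem (mul_mem (inv_mem hl) (Subgroup.subset_closure (Or.inl ht))) hl) ?_
          rw [show (l⁻¹ * t * l)⁻¹ * (s⁻¹ * t * s) = (cm (l⁻¹ * s) (l⁻¹ * t * l))⁻¹ by
            simp only [cm]; group, map_inv, map_cm]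
          exact inv_mem (cm_mem_ucs h _)
        · exact Subgroup.subset_closure (Or.inr (cj_normal ψ.ker t ht s))
      have h2 : insert s T ⊆ T := hT.le_of_ge (y := insert s T)
        ⟨Set.insert_subset hs hT.prop.1, h1.mono (by
          rw [Set.insert_union]
          exact Set.insert_subset_insert Subgroup.subset_closure)⟩ (Set.subset_insert _ _)
      exact Subgroup.subset_closure (Or.inl (h2 (Or.inl rfl)))
  obtain ⟨n, hn⟩ := nil
  refine hT.prop.2.closure.mono (Set.union_subset (fun s hs => key n s hs 1 (one_mem _) ?_)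
    fun r hr => Subgroup.subset_closure (Or.inr hr))
  rw [hn]
  trivial

/-- (D) extension of a locally nilpotent normal subgroup by left Engel elements -/
theorem ln_ext {R : Subgroup G} [R.Normal] (hR : LN (R : Set G)) {S : Set G} (hS : Cj S)
    (hE : ∀ s ∈ S, LE s) (hQ : LN (QuotientGroup.mk' R '' S)) : LN (S ∪ R) := by
  intro F hF hFS
  set H := Subgroup.closure F
  have inj : Function.Injective H.subtype := H.subtype_injective
  let f := (QuotientGroup.mk' R).comp H.subtype
  have nil : Group.IsNilpotent f.range := by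
    refine nil_mono ?_ (hQ (QuotientGroup.mk' R '' (F ∩ S)) ((hF.inter_of_left S).image _)
      (Set.image_mono Set.inter_subset_right))
    rintro _ ⟨⟨g, hg⟩, rfl⟩
    have : H ≤ (Subgroup.closure (QuotientGroup.mk' R '' (F ∩ S))).comap
        (QuotientGroup.mk' R) := by
      rw [Subgroup.closure_le]
      intro t ht
      rcases hFS ht with h | h
      · exact Subgroup.subset_closure ⟨t, ⟨ht, h⟩, rfl⟩
      · rw [SetLike.mem_coe, Subgroup.mem_comap, show QuotientGroup.mk' R t = 1 from (QuotientGroup.eq_one_iff t).mpr h]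
        exact one_mem _
    exact this hg
  have hk : (f.rangeRestrict.ker : Set H) = H.subtype ⁻¹' R := by
    ext g
    simp [f, MonoidHom.ker_rangeRestrict, MonoidHom.mem_ker]
  have := ln_ker nil f.rangeRestrict (S := H.subtype ⁻¹' S) (fun x hx g => hS _ hx _)
    (fun s hs => LE.of_map inj (hE _ hs)) (by rw [hk]; exact hR.preimage inj)
    _ (hF.preimage inj.injOn) (by rw [hk]; exact fun t ht => hFS ht)
  have h2 : Subgroup.closure (H.subtype ⁻¹' F) = ⊤ := Subgroup.closure_closure_coe_preimage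
  rw [h2] at this
  exact Group.isNilpotent_top.mp this

theorem LN.le {X : Set G} (h : LN X) (hX : Cj X) {s : G} (hs : s ∈ X) : LE s := by
  intro g
  haveI := hX.normal
  have h1 : s ∈ Subgroup.closure X := Subgroup.subset_closure hs
  obtain ⟨n, hn⟩ := (Subgroup.isNilpotent_iff_lowerCentralSeries _).mp
    (h.closure {cm g s, s} (Set.toFinite _) (Set.pair_subset (cm_mem_right g h1) h1))
  have : ∀ k, (fun c => cm c s)^[k + 1] g ∈
      (Subgroup.closure {cm g s, s}).lowerCentralSeries k := by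
    intro k
    induction k with
    | zero => exact Subgroup.subset_closure (Or.inl rfl)
    | succ k ih =>
      rw [Function.iterate_succ_apply']
      exact cm_mem_lcs ih (Subgroup.subset_closure (Or.inr rfl))
  exact ⟨n + 1, by rw [← Subgroup.mem_bot, ← hn]; exact this n⟩

variable (G) in
/-- the Hirsch-Plotkin radical -/
def HP : Subgroup G := Subgroup.closure (⋃₀ {X : Set G | Cj X ∧ LN X})

instance : (HP G).Normal :=
  Cj.normal fun x ⟨X, hX, hx⟩ g => ⟨X, hX, hX.1 x hx g⟩

theorem sub_HP {X : Set G} (h1 : Cj X) (h2 : LN X) : X ⊆ HP G :=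
  fun _ hx => Subgroup.subset_closure ⟨X, ⟨h1, h2⟩, hx⟩

theorem HP_ln : LN (HP G : Set G) := by
  obtain ⟨T, -, hT⟩ := zorn_subset_nonempty {X : Set G | Cj X ∧ LN X}
    (fun c hc h hne => ⟨⋃₀ c, ⟨fun x ⟨X, hX, hx⟩ g => ⟨X, hX, (hc hX).1 x hx g⟩, by
      simpa using ln_sUnion h hne (R := ∅) fun T hT => by simpa using (hc hT).2⟩,
      fun _ h => Set.subset_sUnion_of_mem h⟩) ∅
    ⟨fun _ h => h.elim, fun F _ hF => by
      rw [Set.subset_empty_iff.mp hF, Subgroup.closure_empty]
      infer_instance⟩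
  refine LN.closure (hT.prop.2.mono (Set.sUnion_subset fun X hX => ?_))
  haveI := hT.prop.1.normal
  have := ln_ext hT.prop.2.closure hX.1 (fun s hs => hX.2.le hX.1 hs) (hX.2.image _)
  refine Set.subset_union_left.trans (hT.le_of_ge (y := X ∪ T) ⟨?_, this.mono
    (Set.union_subset_union_right _ Subgroup.subset_closure)⟩ Set.subset_union_right)
  rintro x (hx | hx) g
  · exact Or.inl (hX.1 x hx g)
  · exact Or.inr (hT.prop.1 x hx g)

theorem sub_HP_of_quot {S : Set G} (hS : Cj S) (hE : ∀ s ∈ S, LE s)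
    (hQ : LN (QuotientGroup.mk' (HP G) '' S)) : S ⊆ HP G :=
  sub_HP hS ((ln_ext HP_ln hS hE hQ).mono Set.subset_union_left)

end Pool.Agent.P.MP_9682d1_al.C
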