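import Mathlib
import Pool.Agent.P.MP_9682d1_al.C.Clos
import Pool.Agent.P.MP_9682d1_al.C.Ext

set_option autoImplicit false

namespace Pool.Agent.P.MP_9682d1_al.C

universe u

variable {G : Type*} [Group G]

/-- the conjugacy class -/
def cls (a : G) : Set G := {x | ∃ g : G, x = g⁻¹ * a * g}

theorem self_mem_cls (a : G) : a ∈ cls a := ⟨1, by simp⟩

theorem cj_mem_cls (a g : G) : g⁻¹ * a * g ∈ cls a := ⟨g, rfl⟩

theorem cj_cls (a : G) : Cj (cls a) := by
  rintro _ ⟨g, rfl⟩ h
  exact ⟨g * h, by group⟩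

theorem cls_sub {X : Set G} (h : Cj X) {a : G} (ha : a ∈ X) : cls a ⊆ X := by
  rintro _ ⟨g, rfl⟩
  exact h a ha g

theorem map_mem_cls {Q : Type*} [Group Q] (f : G →* Q) {a u : G} (hu : u ∈ cls a) :
    f u ∈ cls (f a) := by
  obtain ⟨g, rfl⟩ := hu
  exact ⟨f g, by simp⟩

theorem image_cls {Q : Type*} [Group Q] {f : G →* Q} (hf : Function.Surjective f) (a : G) :
    f '' cls a = cls (f a) := by
  refine Set.Subset.antisymm ?_ ?_
  · rintro _ ⟨u, hu, rfl⟩
    exact map_mem_cls f hu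
  · rintro _ ⟨g, rfl⟩
    obtain ⟨g, rfl⟩ := hf g
    exact ⟨_, cj_mem_cls a g, by simp⟩

theorem RE.cls {n : ℕ} {a u : G} (h : RE n a) (hu : u ∈ cls a) : RE n u := by
  obtain ⟨g, rfl⟩ := hu
  exact h.cj g

theorem exists_cj_of_cls {a u v : G} (hu : u ∈ cls a) (hv : v ∈ cls a) :
    ∃ g : G, v = g⁻¹ * u * g := by
  obtain ⟨g, rfl⟩ := hu
  obtain ⟨h, rfl⟩ := hv
  exact ⟨g⁻¹ * h, by group⟩

theorem mem_HP_iff {a : G} : a ∈ HP G ↔ LN (cls a) :=
  ⟨fun h => HP_ln.mono (cls_sub (cj_normal _) h), fun h => sub_HP (cj_cls a) h (self_mem_cls a)⟩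

theorem Good.sub_HP {X : Set G} (h : Good X) : X ⊆ HP G := C.sub_HP h.cj h.ln

theorem ln_of_comm {X : Set G} (h : ∀ x ∈ X, ∀ y ∈ X, Commute x y) : LN X := by
  intro F _ hF
  have := Subgroup.isMulCommutative_closure fun x hx y hy => (h x (hF hx) y (hF hy)).eq
  exact ⟨1, Subgroup.upperCentralSeries_one_eq_top_iff.mpr this⟩

theorem map_mem_HP {Q : Type*} [Group Q] {f : G →* Q} (hf : Function.Surjective f) {a : G}
    (h : a ∈ HP G) : f a ∈ HP Q := by
  rw [mem_HP_iff, ← image_cls hf]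
  exact (mem_HP_iff.mp h).image f

theorem le_of_mem_HP {a : G} (h : a ∈ HP G) : LE a := HP_ln.le (cj_normal _) h

theorem LE.hp_lift {s : G} (h : LE s) (hq : QuotientGroup.mk' (HP G) s ∈ HP (G ⧸ HP G)) :
    s ∈ HP G := by
  refine sub_HP_of_quot (cj_cls s) ?_ ?_ (self_mem_cls s)
  · rintro _ ⟨g, rfl⟩
    exact h.cj g
  · rw [image_cls (QuotientGroup.mk'_surjective _)]
    exact mem_HP_iff.mp hq

theorem RE.hp_lift {n : ℕ} {a : G} (h : RE n a)
    (hq : QuotientGroup.mk' (HP G) a ∈ HP (G ⧸ HP G)) : a ∈ HP G := by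
  rw [← inv_mem_iff]
  exact h.le_inv.hp_lift (by rw [map_inv]; exact inv_mem hq)

/-- to show `a ∈ HP G` one may kill any subset of `HP G` -/
theorem RE.hp_of_quot {G : Type u} [Group G] {n : ℕ} {a : G} (h : RE n a)
    (H : ∀ (Q : Type u) [Group Q] (φ : G →* Q), Function.Surjective φ →
      (∀ t ∈ HP G, φ t = 1) → φ a ∈ HP Q) : a ∈ HP G :=
  h.hp_lift (H _ _ (QuotientGroup.mk'_surjective _) fun t ht =>
    (QuotientGroup.eq_one_iff t).mpr ht)

theorem lcs_pair {u v : G} {n : ℕ}
    (h : (Subgroup.closure {u, v}).lowerCentralSeries (n + 2) = ⊥) :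
    (Subgroup.closure {v, u⁻¹ * v * u}).lowerCentralSeries (n + 1) = ⊥ := by
  set K := Subgroup.closure ({u, v} : Set G)
  set K' := Subgroup.closure ({v, u⁻¹ * v * u} : Set G)
  have hu : u ∈ K := Subgroup.subset_closure (by simp)
  have hv : v ∈ K := Subgroup.subset_closure (by simp)
  have hK : K' ≤ K := by
    rw [Subgroup.closure_le]
    exact Set.pair_subset hv (mul_mem (mul_mem (inv_mem hu) hv) hu)
  have h1 : ⁅K', K'⁆ ≤ K.lowerCentralSeries 2 := by
    let u' : K := ⟨u, hu⟩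
    let v' : K := ⟨v, hv⟩
    let N : Subgroup K := (⊤ : Subgroup K).lowerCentralSeries 2
    have e : K' = (Subgroup.closure {v', u'⁻¹ * v' * u'}).map K.subtype := by
      rw [MonoidHom.map_closure, Set.image_insert_eq, Set.image_singleton]
      rfl
    have t : ∀ k, cm (cm v' u') k ∈ N := fun k =>
      cm_mem_lcs (cm_mem_lcs (n := 0) trivial trivial) trivial
    have g1 : cm (u'⁻¹ * v' * u') v' ∈ N := by
      rw [cj_eq, cm_mul_left, cm_self]
      simpa using t v'
    have g : ∀ x ∈ Subgroup.closure {v', u'⁻¹ * v' * u'},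
        ∀ y ∈ Subgroup.closure {v', u'⁻¹ * v' * u'}, cm x y ∈ N := by
      intro x hx y hy
      refine cm_closure (fun y hy => ?_) hy
      rw [← cm_inv, inv_mem_iff]
      refine cm_closure (fun x hx => ?_) hx
      rcases hx with rfl | rfl <;> rcases hy with rfl | rfl
      · simp
      · exact g1
      · rw [← cm_inv, inv_mem_iff]
        exact g1
      · simp
    rw [e, ← Subgroup.map_commutator, ← Subgroup.top_subtype_lowerCentralSeries]
    refine Subgroup.map_mono (Subgroup.commutator_le.mpr fun x hx y hy => ?_)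
    rw [bracket_eq_cm]
    exact g _ (inv_mem hx) _ (inv_mem hy)
  have h2 : ∀ m, K'.lowerCentralSeries (m + 1) ≤ K.lowerCentralSeries (m + 2) := by
    intro m
    induction m with
    | zero => exact h1
    | succ m ih => exact Subgroup.commutator_mono ih hK
  rw [eq_bot_iff, ← h]
  exact h2 n

theorem p2_of_comm {u v : G} (h1 : Commute v (u⁻¹ * v * u)) (h2 : Commute u (v⁻¹ * u * v)) :
    P2 u v := by
  refine ⟨((Commute.refl u).inv_right.mul_right h2).symm, ?_⟩
  rw [← cm_inv]
  exact ((Commute.refl v).inv_right.mul_right h1).symm.inv_left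

/-- uniform nilpotency class -/
theorem exists_class {G : Type u} [Group G] {a : G} (ha : RE 4 a)
    (A0 : ∀ (G : Type u) [Group G] (a g : G), RE 4 a →
      Group.IsNilpotent (Subgroup.closure {a, g})) :
    ∃ n, ∀ g : G, (Subgroup.closure {a, g}).lowerCentralSeries n = ⊥ := by
  obtain ⟨n, hn⟩ := (Subgroup.isNilpotent_iff_lowerCentralSeries _).mp
    (A0 (G → G) (fun _ => a) id fun x => funext fun g =>
      (map_iter (Pi.evalMonoidHom (fun _ => G) g) x 4 _).trans (ha.iter _))
  refine ⟨n, fun g => ?_⟩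
  have := congrArg (Subgroup.map (Pi.evalMonoidHom (fun _ => G) g)) hn
  rwa [Subgroup.map_lowerCentralSeries, MonoidHom.map_closure, Set.image_insert_eq,
    Set.image_singleton, Subgroup.map_bot] at this

theorem lcs_cj {S : Set G} {n : ℕ} (h : (Subgroup.closure S).lowerCentralSeries n = ⊥)
    {Q : Type*} [Group Q] (f : G →* Q) :
    (Subgroup.closure (f '' S)).lowerCentralSeries n = ⊥ := by
  rw [← MonoidHom.map_closure, ← Subgroup.map_lowerCentralSeries, h, Subgroup.map_bot]

theorem exists_class_cls {G : Type u} [Group G] {a : G} (ha : RE 4 a)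
    (A0 : ∀ (G : Type u) [Group G] (a g : G), RE 4 a →
      Group.IsNilpotent (Subgroup.closure {a, g})) :
    ∃ n, ∀ u ∈ cls a, ∀ g : G, (Subgroup.closure {u, g}).lowerCentralSeries n = ⊥ := by
  obtain ⟨n, hn⟩ := exists_class ha A0
  refine ⟨n, ?_⟩
  rintro _ ⟨h, rfl⟩ g
  have := lcs_cj (hn (h * g * h⁻¹)) (MulAut.conj h⁻¹).toMonoidHom
  rw [Set.image_insert_eq, Set.image_singleton] at this
  simpa [mul_assoc] using this

/-- the descent: if commutators of class 2 pairs of conjugates lie in `HP` then so does `a`.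
`P` is any property of `a` that passes to quotients. -/
theorem descent (P : ∀ (G : Type u) [Group G], G → Prop)
    (hP : ∀ (G Q : Type u) [Group G] [Group Q] (φ : G →* Q) (a : G), Function.Surjective φ →
      P G a → P Q (φ a))
    (A0 : ∀ (G : Type u) [Group G] (a g : G), RE 4 a →
      Group.IsNilpotent (Subgroup.closure {a, g}))
    (U : ∀ (G : Type u) [Group G] (a : G), RE 4 a → P G a → ∀ u ∈ cls a, ∀ v ∈ cls a, P2 u v →
      cm u v ∈ HP G)
    {G : Type u} [Group G] {a : G} (ha : RE 4 a) (hp : P G a) : a ∈ HP G := by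
  have I : ∀ c, (∀ (Q : Type u) [Group Q] (φ : G →* Q), Function.Surjective φ →
      (∀ u ∈ cls a, ∀ v ∈ cls a, (Subgroup.closure {u, v}).lowerCentralSeries (c + 1) = ⊥ →
        Commute (φ u) (φ v)) → φ a ∈ HP Q) → a ∈ HP G := by
    intro c
    induction c with
    | zero =>
      intro H
      refine H G (MonoidHom.id G) Function.surjective_id fun u _ v _ h => ?_
      rw [← cm_eq_one, ← Subgroup.mem_bot, ← h]
      exact cm_mem_lcs (n := 0) (Subgroup.subset_closure (by simp))
        (Subgroup.subset_closure (by simp))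
    | succ c ih =>
      intro H
      refine ih fun Q _ φ hφ h => (ha.map hφ).hp_of_quot fun Q' _ ψ hψ hk => ?_
      refine H Q' (ψ.comp φ) (hψ.comp hφ) fun u hu v hv huv => ?_
      rw [← cm_eq_one, ← map_cm, MonoidHom.comp_apply, map_cm]
      refine hk _ (U Q _ (ha.map hφ) (hP _ _ φ a hφ hp) _ (map_mem_cls φ hu) _ (map_mem_cls φ hv)
        (p2_of_comm ?_ ?_))
      · simpa using h v hv _ (cj_cls a v hv u) (lcs_pair huv)
      · simpa using h u hu _ (cj_cls a u hu v) (lcs_pair (by rwa [Set.pair_comm]))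
  obtain ⟨n, hn⟩ := exists_class_cls ha A0
  refine I n fun Q _ φ hφ h => ?_
  rw [mem_HP_iff, ← image_cls hφ]
  refine ln_of_comm ?_
  rintro _ ⟨u, hu, rfl⟩ _ ⟨v, hv, rfl⟩
  refine h u hu v hv ?_
  rw [Subgroup.lowerCentralSeries_succ, hn u hu v, Subgroup.commutator_bot_left]

end Pool.Agent.P.MP_9682d1_al.C
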